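import Pool.Agent.Y113.W.All

/-!
# Scaled G-systems: the functions `y (g z)`
-/

set_option autoImplicit false

open PowerSeries

namespace Pool.Agent.X120.Geo

open Pool.Agent.Y113

/-- the polynomial `T (g z)` -/
noncomputable def ts (g : ℕ) (T : Polynomial ℤ) : Polynomial ℤ := T.comp (Polynomial.C (g : ℤ) * Polynomial.X)

/-- the series `f (g z)` -/
noncomputable def rs (g : ℕ) (f : ℚ⟦X⟧) : ℚ⟦X⟧ := PowerSeries.rescale (g : ℚ) f

theorem coeff_rs (g m : ℕ) (f : ℚ⟦X⟧) : coeff m (rs g f) = (g : ℚ) ^ m * coeff m f := by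
  rw [rs, coeff_rescale]

theorem coeff_ts (g l : ℕ) (T : Polynomial ℤ) : (ts g T).coeff l = T.coeff l * (g : ℤ) ^ l := by
  rw [ts, Polynomial.comp_C_mul_X_coeff]

theorem rs_ps (g : ℕ) (T : Polynomial ℤ) : rs g (ps T) = ps (ts g T) := by
  ext m
  rw [coeff_rs, ps, ps, Polynomial.coeff_coe, Polynomial.coeff_coe, Polynomial.coeff_map, Polynomial.coeff_map,
    coeff_ts]
  simp only [eq_intCast]
  push_cast
  ring

theorem rs_mul (g : ℕ) (f h : ℚ⟦X⟧) : rs g (f * h) = rs g f * rs g h := by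
  unfold rs; rw [map_mul]

theorem rs_one (g : ℕ) : rs g 1 = 1 := by
  unfold rs; rw [map_one]

theorem rs_pow (g n : ℕ) (f : ℚ⟦X⟧) : rs g (f ^ n) = rs g f ^ n := by
  unfold rs; rw [map_pow]

theorem rs_sum {ι : Type*} (s : Finset ι) (g : ℕ) (f : ι → ℚ⟦X⟧) : rs g (∑ i ∈ s, f i) = ∑ i ∈ s, rs g (f i) := by
  unfold rs; rw [map_sum]

theorem rs_prod {ι : Type*} (s : Finset ι) (g : ℕ) (f : ι → ℚ⟦X⟧) : rs g (∏ i ∈ s, f i) = ∏ i ∈ s, rs g (f i) := by
  unfold rs; rw [map_prod]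

theorem rs_nat (g n : ℕ) : rs g (n : ℚ⟦X⟧) = n := by
  unfold rs; rw [map_natCast]

theorem hd_rs (g s : ℕ) (f : ℚ⟦X⟧) : hd s (rs g f) = (g : ℚ⟦X⟧) ^ s * rs g (hd s f) := by
  ext m
  have h1 : ((g : ℚ⟦X⟧) ^ s) = PowerSeries.C ((g : ℚ) ^ s) := by simp
  rw [coeff_hd, coeff_rs, h1, coeff_C_mul, coeff_rs, coeff_hd, pow_add]
  ring

theorem ts_bound {q : ℕ} {C : ℝ} {T : Polynomial ℤ} (hT : T.natDegree ≤ q) (hc : ∀ l, |((T.coeff l : ℤ) : ℝ)| ≤ C)
    {g : ℕ} (hg : 1 ≤ g) : (ts g T).natDegree ≤ q ∧ ∀ l, |(((ts g T).coeff l : ℤ) : ℝ)| ≤ C * (g : ℝ) ^ q := by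
  have hg1 : (1 : ℝ) ≤ g := by exact_mod_cast hg
  have hC : 0 ≤ C := (abs_nonneg _).trans (hc 0)
  constructor
  · rw [Polynomial.natDegree_le_iff_coeff_eq_zero]
    intro l hl
    rw [coeff_ts, Polynomial.coeff_eq_zero_of_natDegree_lt (lt_of_le_of_lt hT hl), zero_mul]
  · intro l
    rw [coeff_ts]
    by_cases hl : l ≤ q
    · push_cast
      rw [abs_mul, abs_of_nonneg (by positivity : (0 : ℝ) ≤ (g : ℝ) ^ l)]
      exact mul_le_mul (hc l) (pow_le_pow_right₀ hg1 hl) (by positivity) hC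
    · rw [Polynomial.coeff_eq_zero_of_natDegree_lt (by omega), zero_mul]
      simp
      positivity

/-- scaling of a G-system -/
theorem scale {ι : Type} [Fintype ι] {q : ℕ} {C : ℝ} {T : Polynomial ℤ} {y : ι → ℚ⟦X⟧} (h : GSys q C T y) {g : ℕ}
    (hg : 1 ≤ g) : GSys q (C * (g : ℝ) ^ (q + 1)) (ts g T) (fun i => rs g (y i)) := by
  have hg1 : (1 : ℝ) ≤ g := by exact_mod_cast hg
  have hC1 := h.one_le
  have hC0 : (0 : ℝ) ≤ C := by linarith
  have hgq : (1 : ℝ) ≤ (g : ℝ) ^ (q + 1) := one_le_pow₀ hg1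
  have hle : C ≤ C * (g : ℝ) ^ (q + 1) := le_mul_of_one_le_right hC0 hgq
  have hpw : ∀ m, C ^ (m + 1) ≤ (C * (g : ℝ) ^ (q + 1)) ^ (m + 1) := fun m => pow_le_pow_left₀ hC0 hle _
  obtain ⟨hb1, hb2⟩ := ts_bound h.degT h.sizeT hg
  refine ⟨hC1.trans hle, hb1, fun l => (hb2 l).trans ?_, fun i m => ?_, fun m => ?_, fun k => ?_⟩
  · exact mul_le_mul_of_nonneg_left (pow_le_pow_right₀ hg1 (by omega)) hC0
  · rw [coeff_rs]
    push_cast
    rw [abs_mul, abs_of_nonneg (by positivity : (0 : ℝ) ≤ (g : ℝ) ^ m), mul_pow, ← pow_mul, mul_comm]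
    refine mul_le_mul (h.size i m) (pow_le_pow_right₀ hg1 (by nlinarith)) (by positivity) (by positivity)
  · obtain ⟨d, hd0, hd, hd'⟩ := h.den m
    refine ⟨d, hd0, hd.trans (hpw m), fun i j hj => ?_⟩
    obtain ⟨a, ha⟩ := hd' i j hj
    refine ⟨a * (g : ℤ) ^ j, ?_⟩
    rw [coeff_rs]
    push_cast
    rw [← ha]
    ring
  · obtain ⟨d, hd0, hdb, hd'⟩ := h.der k
    refine ⟨d, hd0, hdb.trans (hpw k), fun s hs => ?_⟩
    obtain ⟨G, h1, h2, h3⟩ := hd' s hs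
    refine ⟨fun i j => Polynomial.C ((g : ℤ) ^ s) * ts g (G i j), fun i j => ?_, fun i j l => ?_, fun i => ?_⟩
    · exact (Polynomial.natDegree_C_mul_le _ _).trans (ts_bound (h1 i j) (h2 i j) hg).1
    · rw [Polynomial.coeff_C_mul]
      push_cast
      rw [abs_mul, abs_of_nonneg (by positivity : (0 : ℝ) ≤ (g : ℝ) ^ s)]
      calc (g : ℝ) ^ s * |(((ts g (G i j)).coeff l : ℤ) : ℝ)| ≤ (g : ℝ) ^ s * (C ^ (k + 1) * (g : ℝ) ^ (q * s)) := by
            gcongr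
            exact (ts_bound (h1 i j) (h2 i j) hg).2 l
        _ = C ^ (k + 1) * (g : ℝ) ^ (s + q * s) := by rw [pow_add]; ring
        _ ≤ C ^ (k + 1) * (g : ℝ) ^ ((q + 1) * (k + 1)) := by
            gcongr
            nlinarith
        _ = _ := by rw [mul_pow, ← pow_mul]
    · have e1 : (d : ℚ⟦X⟧) * (ps (ts g T) ^ s * hd s (rs g (y i))) =
          (g : ℚ⟦X⟧) ^ s * rs g ((d : ℚ⟦X⟧) * (ps T ^ s * hd s (y i))) := by
        rw [hd_rs, rs_mul, rs_mul, rs_pow, rs_ps, rs_nat]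
        ring
      rw [e1, h3 i, rs_sum, Finset.mul_sum]
      refine Finset.sum_congr rfl fun j _ => ?_
      rw [rs_mul, rs_ps, ps_mul, ps_C]
      push_cast
      ring

/-- the product of the `T (g_l z)` -/
noncomputable def PTs {k : ℕ} (T : Polynomial ℤ) (g : Fin k → ℕ) : Polynomial ℤ := ∏ l, ts (g l) T

/-- the products of scaled functions -/
noncomputable def pms {κ : Type} {k : ℕ} (Y : κ → ℚ⟦X⟧) (g : Fin k → ℕ) (b : Fin k → κ) : ℚ⟦X⟧ :=
  ∏ l, rs (g l) (Y (b l))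

/-- the products of scaled functions form a G-system -/
theorem gprod {κ : Type} [Fintype κ] {q₀ : ℕ} {C₀ : ℝ} {T : Polynomial ℤ} {Y : κ → ℚ⟦X⟧} (h : GSys q₀ C₀ T Y) (k : ℕ) :
    ∃ q E : ℕ, ∀ (H : ℕ) (g : Fin k → ℕ), (∀ l, 1 ≤ g l ∧ g l ≤ H) →
      GSys q (((H : ℝ) + 2) ^ E) (PTs T g) (pms Y g) := by
  obtain ⟨e, he⟩ := pow_unbounded_of_one_lt C₀ (by norm_num : (1 : ℝ) < 2)
  have hbase : ∀ (H g : ℕ), 1 ≤ g → g ≤ H → GSys q₀ (((H : ℝ) + 2) ^ (e + (q₀ + 1))) (ts g T) (fun i => rs g (Y i)) := by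
    intro H g hg1 hg2
    refine (scale h hg1).mono le_rfl ?_
    have hgH : (g : ℝ) ≤ (H : ℝ) + 2 := by
      have : (g : ℝ) ≤ H := by exact_mod_cast hg2
      linarith
    have h2 : (2 : ℝ) ≤ (H : ℝ) + 2 := by
      have : (0 : ℝ) ≤ (H : ℝ) := Nat.cast_nonneg H
      linarith
    rw [pow_add ((H : ℝ) + 2) e (q₀ + 1)]
    refine mul_le_mul (he.le.trans (pow_le_pow_left₀ (by norm_num) h2 _)) (pow_le_pow_left₀ (by positivity) hgH _)
      (by positivity) (by positivity)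
  induction k with
  | zero =>
    refine ⟨0, 0, fun H g _ => ?_⟩
    have h1 : GSys 0 (1 : ℝ) 1 (fun _ : Fin 0 → κ => (1 : ℚ⟦X⟧)) := by
      refine GSys.const le_rfl (by simp) fun l => ?_
      rw [Polynomial.coeff_one]
      split_ifs <;> simp
    have h2 : (pms Y g) = fun _ => 1 := by
      funext b
      simp [pms]
    have h3 : PTs T g = 1 := by simp [PTs]
    rw [h2, h3]
    simpa using h1
  | succ k ih =>
    obtain ⟨q, E, hE⟩ := ih
    obtain ⟨E₁, hE₁⟩ := t_enl q₀ q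
    obtain ⟨E₂, hE₂⟩ := t_enl q q₀
    obtain ⟨E₃, hE₃⟩ := t_prod (q + q₀)
    set E' := max (e + (q₀ + 1)) E with hE'
    set E'' := (E' + 1) * (max E₁ E₂) with hE''
    refine ⟨q + q₀, (E'' + 1) * E₃, fun H g hg => ?_⟩
    have hg1 := one_le_base H
    have h1 : GSys q₀ (((H : ℝ) + 2) ^ E') (ts (g 0) T) (fun i => rs (g 0) (Y i)) :=
      (hbase H (g 0) (hg 0).1 (hg 0).2).mono le_rfl (base_mono hg1 (le_max_left _ _))
    have h2 : GSys q (((H : ℝ) + 2) ^ E') (PTs T fun l : Fin k => g l.succ) (pms Y fun l : Fin k => g l.succ) :=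
      (hE H _ fun l => hg l.succ).mono le_rfl (base_mono hg1 (le_max_right _ _))
    have h3 := hE₁ _ _ _ (PTs T fun l : Fin k => g l.succ) _ h1 h2.degT h2.sizeT
    have h4 := hE₂ _ _ _ (ts (g 0) T) _ h2 h1.degT h1.sizeT
    have hE1 : (2 * ((H : ℝ) + 2) ^ E') ^ E₁ ≤ ((H : ℝ) + 2) ^ E'' := by
      refine (pow_base H _ _).trans (base_mono hg1 ?_)
      exact Nat.mul_le_mul_left _ (le_max_left _ _)
    have hE2 : (2 * ((H : ℝ) + 2) ^ E') ^ E₂ ≤ ((H : ℝ) + 2) ^ E'' := by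
      refine (pow_base H _ _).trans (base_mono hg1 ?_)
      exact Nat.mul_le_mul_left _ (le_max_right _ _)
    have hPT : PTs T g = ts (g 0) T * PTs T (fun l : Fin k => g l.succ) := by
      simp [PTs, Fin.prod_univ_succ]
    have h5 : GSys (q + q₀) (((H : ℝ) + 2) ^ E'') (PTs T g) (fun i => rs (g 0) (Y i)) := by
      rw [hPT]
      exact h3.mono (by omega) hE1
    have h6 : GSys (q + q₀) (((H : ℝ) + 2) ^ E'') (PTs T g) (pms Y fun l : Fin k => g l.succ) := by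
      rw [hPT, mul_comm]
      exact h4.mono le_rfl hE2
    have h7 := (hE₃ _ _ _ _ _ _ h5 h6).mono le_rfl (pow_base H _ _)
    have h8 := h7.reindex (Fin.consEquiv fun _ => κ).symm
    have h9 : (pms Y g) = fun j =>
        rs (g 0) (Y ((Fin.consEquiv fun _ => κ).symm j).1) *
          pms Y (fun l : Fin k => g l.succ) ((Fin.consEquiv fun _ => κ).symm j).2 := by
      funext b
      unfold pms
      rw [Fin.prod_univ_succ]
      rfl
    rw [h9]
    exact h8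

end Pool.Agent.X120.Geo
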