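import Pool.Agent.X120.Geo.Inp

/-!
# The Legendre family at several scales
-/

set_option autoImplicit false

open PowerSeries Filter Topology Set

namespace Pool.Agent.X120.Geo

open Pool.Agent.Y113 Pool.Agent.Y37.GF

variable {α β : ℝ}

theorem z1_zero : z1 0 = 1 := by simp [z1]

/-- several scales -/
theorem multiS (hD : Dat α β) (Δ : ℕ) (n : ℕ) : ∀ (ι : Type) [Fintype ι] [DecidableEq ι] (γ : ι → ℝ)
    (Q : (ι → Ex Δ) → Polynomial ℝ), Fintype.card ι = n → Function.Injective γ → (∀ l, 0 < γ l) →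
    (∀ᶠ z in 𝓝[>] (0 : ℝ), ∑ b, (Q b).eval z * ∏ l, mv (yt α β 0 (γ l * z)) (b l) = 0) →
    ∀ b, Q b = 0 := by
  induction n with
  | zero =>
    intro ι _ _ γ Q hcard _ _ h b
    have : IsEmpty ι := Fintype.card_eq_zero_iff.1 hcard
    apply poly_zero'
    filter_upwards [h] with z hz
    rw [Fintype.sum_eq_single b (fun b' hb' => absurd (Subsingleton.elim b' b) hb')] at hz
    simpa using hz
  | succ n ih =>
    intro ι _ _ γ Q hcard hγ hγ0 h b
    have hne : (Finset.univ : Finset ι).Nonempty := by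
      rw [← Finset.card_pos, Finset.card_univ, hcard]; omega
    obtain ⟨l₁, -, hl₁⟩ := Finset.exists_max_image Finset.univ γ hne
    have hg0 := hγ0 l₁
    let e := Equiv.funSplitAt l₁ (Ex Δ)
    -- the coefficients
    let c : Ex Δ → ℝ → ℝ := fun x w => ∑ b' : {j // j ≠ l₁} → Ex Δ,
      (Q (e.symm (x, b'))).eval (w / γ l₁) * ∏ l : {j // j ≠ l₁}, mv (yt α β 0 (γ l * (w / γ l₁))) (b' l)
    have hlt : ∀ l : {j // j ≠ l₁}, γ l < γ l₁ := fun l =>
      lt_of_le_of_ne (hl₁ l (Finset.mem_univ _)) fun h => l.2 (hγ h)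
    have hcan : ∀ x, ∀ z ∈ Icc 0 (z1 0), AnalyticAt ℝ (c x) z := by
      intro x z hz
      rw [z1_zero] at hz
      refine Finset.analyticAt_fun_sum _ fun b' _ => ?_
      refine AnalyticAt.mul ?_ ?_
      · exact AnalyticAt.fun_comp (f := fun w => w / γ l₁) (g := fun z => (Q (e.symm (x, b'))).eval z)
          ((AnalyticOnNhd.eval_polynomial (𝕜 := ℝ) _) _ (Set.mem_univ _)) analyticAt_id.div_const
      · refine Finset.analyticAt_fun_prod _ fun l _ => mv_an _ fun i => ?_
        have h0 : 0 ≤ γ l * (z / γ l₁) := mul_nonneg (hγ0 l).le (div_nonneg hz.1 hg0.le)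
        have h1 : γ l * (z / γ l₁) < z1 0 := by
          rw [z1_zero, mul_div_assoc', div_lt_one hg0]
          calc γ l * z ≤ γ l * 1 := mul_le_mul_of_nonneg_left hz.2 (hγ0 l).le
            _ = γ l := mul_one _
            _ < _ := hlt l
        exact AnalyticAt.fun_comp (f := fun w => γ l * (w / γ l₁)) (g := fun z => yt α β 0 z i)
          (an_yt' hD h0 h1 i) (analyticAt_const.mul analyticAt_id.div_const)
    have hsum : ∀ z, ∑ b, (Q b).eval z * ∏ l, mv (yt α β 0 (γ l * z)) (b l)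
        = ∑ x, c x (γ l₁ * z) * mv (yt α β 0 (γ l₁ * z)) x := by
      intro z
      have hz : γ l₁ * z / γ l₁ = z := by field_simp
      rw [← e.symm.sum_comp, Fintype.sum_prod_type]
      refine Finset.sum_congr rfl fun x _ => ?_
      simp only [c, hz]
      rw [Finset.sum_mul]
      refine Finset.sum_congr rfl fun b' _ => ?_
      rw [Fintype.prod_eq_mul_prod_subtype_ne _ l₁]
      have h1 : e.symm (x, b') l₁ = x := by simp [e, Equiv.funSplitAt, Equiv.piSplitAt]
      have h2 : ∀ l : {j // j ≠ l₁}, e.symm (x, b') l = b' l := by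
        intro l; simp [e, Equiv.funSplitAt, Equiv.piSplitAt, l.2]
      rw [h1]
      simp only [h2]
      ring
    have htend : Tendsto (fun w : ℝ => w / γ l₁) (𝓝[>] 0) (𝓝[>] 0) := by
      refine tendsto_nhdsWithin_iff.2 ⟨?_, ?_⟩
      · have h1 : ContinuousAt (fun w : ℝ => w / γ l₁) 0 := continuousAt_id.div_const _
        have h2 := h1.tendsto
        simp only [zero_div] at h2
        exact h2.mono_left nhdsWithin_le_nhds
      · filter_upwards [self_mem_nhdsWithin] with w hw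
        exact div_pos hw hg0
    have hz0 := single hD (g := 0) c hcan (by
      filter_upwards [htend.eventually h] with w hw
      rw [hsum] at hw
      have h1 : γ l₁ * (w / γ l₁) = w := by field_simp
      rwa [h1] at hw)
    rw [z1_zero] at hz0
    have hI : Ioo 0 (1 / γ l₁) ∈ 𝓝[>] (0 : ℝ) := Ioo_mem_nhdsGT (by positivity)
    have key : ∀ x, ∀ b', Q (e.symm (x, b')) = 0 := by
      intro x
      refine ih {j // j ≠ l₁} (fun l => γ l) (fun b' => Q (e.symm (x, b'))) ?_ ?_ (fun l => hγ0 l) ?_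
      · rw [Fintype.card_subtype_compl, hcard]; simp
      · intro a b hab; exact Subtype.ext (hγ hab)
      · filter_upwards [hI] with z hz
        have h1 := hz0 (γ l₁ * z) ⟨mul_pos hg0 hz.1, by
          have h2 := hz.2
          rw [lt_div_iff₀ hg0] at h2
          linarith⟩ x
        have hz' : γ l₁ * z / γ l₁ = z := by field_simp
        simp only [c, hz'] at h1
        exact h1
    have := key (e b).1 (e b).2
    rwa [Prod.mk.eta, Equiv.symm_apply_apply] at this

theorem li_leg (Δ k : ℕ) (g : Fin k → ℕ) (hg : Function.Injective g) (hg1 : ∀ l, 1 ≤ g l) :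
    LinearIndependent (Polynomial ℚ) (pms (fun e : Ex Δ => mon 0 e) g) := by
  obtain ⟨α, β, hD⟩ := dat
  rw [Fintype.linearIndependent_iff]
  intro Q hQ
  -- a common radius
  set M : ℝ := 1 + ∑ l, (g l : ℝ) with hM
  have hS : 0 ≤ ∑ l, (g l : ℝ) := Finset.sum_nonneg fun l _ => by positivity
  have hM0 : 0 < M := by rw [hM]; linarith
  have hgM : ∀ l, (g l : ℝ) ≤ M := by
    intro l
    have := Finset.single_le_sum (f := fun l => (g l : ℝ)) (fun l _ => by positivity) (Finset.mem_univ l)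
    rw [hM]; linarith
  set r : ℝ := 1 / 8 / M with hr
  have hr0 : 0 < r := by positivity
  have hgpos : ∀ l, (0 : ℝ) < g l := fun l => by exact_mod_cast hg1 l
  have h8 : ∀ e : Ex Δ, SR (1 / 8) (mon 0 e) := by
    intro e
    have := SR_mon 0 e
    norm_num at this ⊢
    exact this
  have hSR : ∀ b : Fin k → Ex Δ, ∀ l ∈ (Finset.univ : Finset (Fin k)), SR r (rs (g l) (mon 0 (b l))) := by
    intro b l _
    refine (SR_rs (hg1 l) (h8 (b l))).mono hr0.le ?_
    rw [hr]
    have := hgpos l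
    have := hgM l
    gcongr
  have hSP : ∀ b : Fin k → Ex Δ, SR r (pms (fun e : Ex Δ => mon 0 e) g b) := fun b => SR.prod _ hr0.le (hSR b)
  have hsmallz : ∀ l (z : ℝ), |z| ≤ r → |(g l : ℝ) * z| ≤ 1 / 8 := by
    intro l z hz
    rw [abs_mul, Nat.abs_cast]
    calc (g l : ℝ) * |z| ≤ M * r := mul_le_mul (hgM l) hz (abs_nonneg _) hM0.le
      _ = 1 / 8 := by rw [hr]; field_simp
  have hval : ∀ z : ℝ, |z| ≤ r → ∑ b, ((Q b).map (Rat.castHom ℝ)).eval z *
      ∏ l, mv (fun i => E (four 0 i) (g l * z)) (b l) = 0 := by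
    intro z hz
    have h1 : E (∑ b, Q b • pms (fun e : Ex Δ => mon 0 e) g b) z = 0 := by rw [hQ]; simp [E]
    have h2 : ∀ b, Q b • pms (fun e : Ex Δ => mon 0 e) g b = (Q b : PowerSeries ℚ) * pms (fun e : Ex Δ => mon 0 e) g b :=
      fun b => by
        rw [Algebra.smul_def]; rfl
    simp only [h2] at h1
    rw [E_sum _ hr0.le (fun b _ => (SR.poly _ _).mul hr0.le (hSP b)) hz] at h1
    rw [← h1]
    refine Finset.sum_congr rfl fun b _ => ?_
    rw [E_mul (SR.poly _ _) (hSP b) hz, E_poly]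
    unfold pms
    rw [E_prod _ hr0.le (hSR b) hz]
    congr 1
    · rw [Polynomial.eval_map, Polynomial.aeval_def]; rfl
    · refine Finset.prod_congr rfl fun l _ => ?_
      rw [E_rs]
      have h3 := hsmallz l z hz
      exact (E_mon 0 (b l) (by simpa using h3)).symm
  have hsmall : ∀ᶠ z in 𝓝 (0 : ℝ), ∀ l, ∀ i, yt α β 0 (g l * z) i = E (four 0 i) (g l * z) := by
    rw [eventually_all]
    intro l
    have h1 : Tendsto (fun z : ℝ => (g l : ℝ) * z) (𝓝 0) (𝓝 0) := by
      have h2 : ContinuousAt (fun z : ℝ => (g l : ℝ) * z) 0 := continuousAt_const.mul continuousAt_id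
      have h3 := h2.tendsto
      simpa using h3
    exact h1.eventually (yt_small hD 0)
  have hball : ∀ᶠ z in 𝓝 (0 : ℝ), |z| ≤ r := by
    have : Metric.ball (0 : ℝ) r ∈ 𝓝 (0 : ℝ) := Metric.ball_mem_nhds _ hr0
    filter_upwards [this] with z hz
    rw [mem_ball_zero_iff, Real.norm_eq_abs] at hz
    exact hz.le
  have main := multiS hD Δ k (Fin k) (fun l => (g l : ℝ)) (fun b => (Q b).map (Rat.castHom ℝ)) (Fintype.card_fin k)
    (fun l l' h => hg (Nat.cast_injective (R := ℝ) h)) hgpos (by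
    filter_upwards [nhdsWithin_le_nhds hsmall, nhdsWithin_le_nhds hball] with z h1 h2
    rw [← hval z h2]
    refine Finset.sum_congr rfl fun b _ => ?_
    congr 1
    refine Finset.prod_congr rfl fun l _ => ?_
    congr 1
    exact funext (h1 l))
  intro b
  have := main b
  rwa [Polynomial.map_eq_zero] at this

/-- the three functions -/
noncomputable def leg : Fin 3 → ℚ⟦X⟧ := ![uu 0, vv 0, ww 0]

/-- the exponents -/
def ixL (Δ : ℕ) (s : {s // s ∈ expoI (Fin 3) Δ}) : Ex Δ :=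
  ⟨![⟨s.1 0, by have := mem_expoI.1 s.2; rw [Fin.sum_univ_three] at this; omega⟩,
     ⟨s.1 1, by have := mem_expoI.1 s.2; rw [Fin.sum_univ_three] at this; omega⟩,
     ⟨s.1 2, by have := mem_expoI.1 s.2; rw [Fin.sum_univ_three] at this; omega⟩, 0], by
    refine ⟨?_, Or.inr rfl⟩
    have := mem_expoI.1 s.2
    rw [Fin.sum_univ_three] at this
    rw [Fin.sum_univ_four]
    simpa using this⟩

theorem ixL_val (Δ : ℕ) (s : {s // s ∈ expoI (Fin 3) Δ}) : (((ixL Δ s).1 0 : Fin (Δ + 1)) : ℕ) = s.1 0 ∧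
    (((ixL Δ s).1 1 : Fin (Δ + 1)) : ℕ) = s.1 1 ∧ (((ixL Δ s).1 2 : Fin (Δ + 1)) : ℕ) = s.1 2 ∧
    (((ixL Δ s).1 3 : Fin (Δ + 1)) : ℕ) = 0 := ⟨rfl, rfl, rfl, rfl⟩

theorem good_leg : Good leg := by
  refine ⟨⟨1 / 8, by norm_num, fun s => ?_⟩, fun Δ => ?_⟩
  · have h := fun i => SR_four 0 i
    norm_num at h
    fin_cases s
    · exact h 0
    · exact h 1
    · exact h 2
  · obtain ⟨E₀, hE₀⟩ := gsys_mon Pool.Agent.Y37.GF.t_ode (base_of Pool.Agent.Y37.GF.t_ode) Δ
    refine ⟨Ex Δ, inferInstance, 3, _, TT 0, fun e => mon 0 e, ⟨fun _ => 0, by simp, Or.inl rfl⟩, ixL Δ, ?_, hE₀ 0, ?_,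
      ?_, ?_, fun k g hg hg1 => li_leg Δ k g hg hg1⟩
    · intro h0
      have h1 := congrArg (fun P : Polynomial ℤ => P.eval 2) h0
      simp [TT] at h1
    · simp [mon]
    · intro s s' h
      obtain ⟨a0, a1, a2, -⟩ := ixL_val Δ s
      obtain ⟨b0, b1, b2, -⟩ := ixL_val Δ s'
      apply Subtype.ext
      ext i
      fin_cases i
      · show s.1 0 = s'.1 0
        rw [← a0, ← b0, h]
      · show s.1 1 = s'.1 1
        rw [← a1, ← b1, h]
      · show s.1 2 = s'.1 2
        rw [← a2, ← b2, h]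
    · intro s
      obtain ⟨a0, a1, a2, a3⟩ := ixL_val Δ s
      show mon 0 (ixL Δ s) = _
      unfold mon leg
      rw [Fin.prod_univ_four, Fin.prod_univ_three, a0, a1, a2, a3, pow_zero, mul_one]
      rfl

end Pool.Agent.X120.Geo
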