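import Pool.Agent.X120.Geo.Sub
import Pool.Agent.X120.Rec.CoreB
import Pool.Agent.X120.Geo.Leg

/-!
# Few bad indices for the periods of the Legendre family
-/

set_option autoImplicit false

open Module

namespace Pool.Agent.X120.Geo

open Pool.Agent.Y916.Om Pool.Agent.X120.Rec

/-- few indices for numbers which differ by linear changes with constant coefficients -/
theorem Few_subst {κ : Type} [Fintype κ] [DecidableEq κ] {c : ℕ} {y : ℕ → κ → ℂ} (hy : Few y)
    (x : ℕ → κ → ℂ) (n₀ : ℕ) (M N : ℕ → κ → κ → ℂ) (u : Fin c → ℂ)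
    (hMN : ∀ n s s', ∑ t, M n s t * N n t s' = if s = s' then 1 else 0)
    (hM : ∀ n s t, M n s t ∈ Submodule.span ℚ (insert (1 : ℂ) (Set.range u)))
    (hx : ∀ n, n₀ ≤ n → ∀ s, x n s = ∑ t, M n s t * y n t) : Few x := by
  classical
  intro d δ e τ A B
  obtain ⟨C, hC, h⟩ := hy d δ (e + δ) (τ + c) A B
  have hlog2 : 0 < Real.log 2 := Real.log_pos (by norm_num)
  refine ⟨C + n₀ / Real.log 2, by positivity, fun υ _ w T hT hD X hX => ?_⟩
  set w' : υ ⊕ Fin c → ℂ := Sum.elim w u with hw'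
  have hD' : Dom A B w' (T.disjSum Finset.univ) := by
    refine hD.of w' _ (fun j hj => ⟨Sum.inl j, Finset.inl_mem_disjSum.2 hj, rfl⟩) ?_
    rintro (j | j)
    · exact Or.inr ⟨j, rfl⟩
    · exact Or.inl (Finset.inr_mem_disjSum.2 (Finset.mem_univ _))
  obtain ⟨S, hS, hm⟩ := h (υ ⊕ Fin c) w' (T.disjSum Finset.univ)
    (by rw [Finset.card_disjSum, hT, Finset.card_univ, Fintype.card_fin]) hD' X hX
  refine ⟨S ∪ Finset.range n₀, ?_, fun n h1 h2 hbad => ?_⟩
  · have h1 : ((S ∪ Finset.range n₀).card : ℝ) ≤ S.card + n₀ := by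
      have := Finset.card_union_le S (Finset.range n₀)
      rw [Finset.card_range] at this
      exact_mod_cast this
    have h2 : Real.log 2 ≤ Real.log X := Real.log_le_log (by norm_num) (by exact_mod_cast hX)
    have h3 : (n₀ : ℝ) ≤ n₀ / Real.log 2 * Real.log X := by
      rw [div_mul_eq_mul_div, le_div_iff₀ hlog2]
      exact mul_le_mul_of_nonneg_left h2 (Nat.cast_nonneg _)
    rw [add_mul]
    linarith
  · by_cases hn : n < n₀
    · exact Finset.mem_union_right _ (Finset.mem_range.2 hn)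
    · refine Finset.mem_union_left _ (hm n h1 h2 ?_)
      have hbad' : BadW d δ e w' (x n) := hbad.mono fun j => Or.inr ⟨Sum.inl j, rfl⟩
      refine BadW_subst (M n) (N n) (hMN n) (fun s t => ?_) (hx n (not_lt.1 hn)) hbad'
      refine Submodule.span_mono (Set.insert_subset_insert ?_) (hM n s t)
      rintro _ ⟨j, rfl⟩
      exact ⟨Sum.inr j, rfl⟩

/-- the periods of the Legendre curve -/
noncomputable def perL (x : ℝ) : Fin 3 → ℂ :=
  ![(Pool.Agent.Y113.KK x : ℂ), (Pool.Agent.Y113.EE x : ℂ), (Pool.Agent.Y113.KK (1 - x) : ℂ)]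

/-- **few indices for the Legendre family** -/
theorem few_legendre {a b c : ℕ} (ha : 1 ≤ a) (hb : 2 ≤ b) (hc : 1 ≤ c) :
    Few (fun n => perL ((a : ℝ) / (c * (b : ℝ) ^ n))) := by
  obtain ⟨α, β, hβ, -, hval⟩ := Pool.Agent.Y37.GF.values
  have ha0 : (0 : ℝ) < a := by exact_mod_cast ha
  have hc0 : (0 : ℝ) < c := by exact_mod_cast hc
  have hb0 : (0 : ℝ) < b := by exact_mod_cast (by omega : 0 < b)
  have hb1 : (1 : ℝ) < b := by exact_mod_cast (by omega : 1 < b)
  obtain ⟨n₀, hn₀⟩ := pow_unbounded_of_one_lt (8 * a / c : ℝ) hb1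
  have hpi : ((Real.pi / 2 : ℝ) : ℂ) ≠ 0 := by
    have : (Real.pi / 2 : ℝ) ≠ 0 := by positivity
    exact_mod_cast this
  have hβ' : (β : ℂ) ≠ 0 := by exact_mod_cast hβ
  set γ : ℕ → ℝ := fun n => α - β / 2 * (Real.log a - Real.log c - n * Real.log b) with hγ
  set u : Fin 6 → ℂ := ![(Real.pi : ℂ), (α : ℂ), (β : ℂ), ((β * Real.log a : ℝ) : ℂ), ((β * Real.log c : ℝ) : ℂ),
    ((β * Real.log b : ℝ) : ℂ)] with hu
  have hum : ∀ i, u i ∈ Submodule.span ℚ (insert (1 : ℂ) (Set.range u)) := fun i =>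
    Submodule.subset_span (Set.mem_insert_of_mem _ ⟨i, rfl⟩)
  refine Few_subst (good_leg.few ha hb hc) _ n₀
    (fun n => ![![((Real.pi / 2 : ℝ) : ℂ), 0, 0], ![0, ((Real.pi / 2 : ℝ) : ℂ), 0], ![(γ n : ℂ), 0, (β : ℂ)]])
    (fun n => ![![((Real.pi / 2 : ℝ) : ℂ)⁻¹, 0, 0], ![0, ((Real.pi / 2 : ℝ) : ℂ)⁻¹, 0],
      ![-((γ n : ℂ) * ((Real.pi / 2 : ℝ) : ℂ)⁻¹ * (β : ℂ)⁻¹), 0, (β : ℂ)⁻¹]]) u ?_ ?_ ?_
  · intro n s s'
    rw [Fin.sum_univ_three]
    fin_cases s <;> fin_cases s' <;> simp [hβ'] <;> field_simp <;> ring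
  · have h1 : ((Real.pi / 2 : ℝ) : ℂ) ∈ Submodule.span ℚ (insert (1 : ℂ) (Set.range u)) := by
      have h2 : ((Real.pi / 2 : ℝ) : ℂ) = (1 / 2 : ℚ) • u 0 := by
        rw [Rat.smul_def]
        simp [hu]
        ring
      rw [h2]
      exact Submodule.smul_mem _ _ (hum 0)
    intro n s t
    have h3 : (γ n : ℂ) ∈ Submodule.span ℚ (insert (1 : ℂ) (Set.range u)) := by
      have h4 : (γ n : ℂ) = u 1 + (-1 / 2 : ℚ) • u 3 + (1 / 2 : ℚ) • u 4 + ((n : ℚ) / 2) • u 5 := by
        simp only [Rat.smul_def]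
        simp [hu, hγ]
        ring
      rw [h4]
      exact Submodule.add_mem _ (Submodule.add_mem _ (Submodule.add_mem _ (hum 1) (Submodule.smul_mem _ _ (hum 3)))
        (Submodule.smul_mem _ _ (hum 4))) (Submodule.smul_mem _ _ (hum 5))
    have h5 : (β : ℂ) ∈ Submodule.span ℚ (insert (1 : ℂ) (Set.range u)) := hum 2
    have h0 : (0 : ℂ) ∈ Submodule.span ℚ (insert (1 : ℂ) (Set.range u)) := Submodule.zero_mem _
    have h1' : (Real.pi : ℂ) / 2 ∈ Submodule.span ℚ (insert (1 : ℂ) (Set.range u)) := by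
      have h6 := h1
      push_cast at h6
      exact h6
    fin_cases s <;> fin_cases t <;> simp <;> assumption
  · intro n hn s
    set x : ℝ := (a : ℝ) / (c * (b : ℝ) ^ n) with hx
    have hx0 : 0 < x := by positivity
    have hx8 : x < 1 / ((0 : ℕ) + 8 : ℝ) := by
      rw [hx, div_lt_div_iff₀ (by positivity) (by norm_num)]
      have h1 : (b : ℝ) ^ n₀ ≤ (b : ℝ) ^ n := pow_le_pow_right₀ hb1.le hn
      have h2 : 8 * a / c < (b : ℝ) ^ n := lt_of_lt_of_le hn₀ h1
      rw [div_lt_iff₀ hc0] at h2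
      push_cast
      linarith
    have hs0 : x / (1 - ((0 : ℕ) : ℝ) * x) = x := by simp
    obtain ⟨v1, v2, v3, -⟩ := hval 0 x hx0 hx8
    rw [hs0] at v1 v2 v3
    have hlog : Real.log x = Real.log a - Real.log c - n * Real.log b := by
      rw [hx, Real.log_div ha0.ne' (by positivity), Real.log_mul hc0.ne' (by positivity), Real.log_pow]
      ring
    rw [hlog] at v3
    rw [Fin.sum_univ_three]
    fin_cases s
    · simp only [perL, hv, leg, Matrix.cons_val, Fin.zero_eta]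
      rw [v1]
      push_cast
      ring
    · simp only [perL, hv, leg, Matrix.cons_val, Fin.mk_one]
      rw [v2]
      push_cast
      ring
    · simp only [perL, hv, leg, Matrix.cons_val, Fin.reduceFinMk]
      rw [v3, hγ]
      push_cast
      ring

end Pool.Agent.X120.Geo
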