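import Pool.Agent.X120.Geo.Scale
import Pool.Agent.X120.Rec.Win
import Pool.Agent.Y113.W.WinK

/-!
# From G-systems to few bad terms of a geometric sequence
-/

set_option autoImplicit false

open PowerSeries

namespace Pool.Agent.X120.Geo

open Pool.Agent.Y113
open Pool.Agent.Y37.GF (SR E)

/-- the values of the functions at `x` -/
noncomputable def hv {σ : Type} (f : σ → ℚ⟦X⟧) (x : ℝ) (s : σ) : ℂ := ((E (f s) x : ℝ) : ℂ)

/-- a family of functions all of whose monomials belong to a G-system which is independent of its scaled copies -/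
structure Good {σ : Type} [Fintype σ] [DecidableEq σ] (f : σ → ℚ⟦X⟧) : Prop where
  conv : ∃ r : ℝ, 0 < r ∧ ∀ s, SR r (f s)
  sys : ∀ Δ : ℕ, ∃ (κ : Type) (_ : Fintype κ) (q : ℕ) (C : ℝ) (T : Polynomial ℤ) (Y : κ → ℚ⟦X⟧) (i₀ : κ)
    (ε : {s // s ∈ expoI σ Δ} → κ), T ≠ 0 ∧ GSys q C T Y ∧ Y i₀ = 1 ∧ Function.Injective ε ∧
    (∀ s, Y (ε s) = ∏ i, f i ^ s.1 i) ∧
    ∀ (k : ℕ) (g : Fin k → ℕ), Function.Injective g → (∀ l, 1 ≤ g l) → LinearIndependent (Polynomial ℚ) (pms Y g)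

theorem E_rs (g : ℕ) (f : ℚ⟦X⟧) (z : ℝ) : E (rs g f) z = E f (g * z) := by
  unfold E
  refine tsum_congr fun m => ?_
  rw [coeff_rs]
  push_cast
  rw [mul_pow]
  ring

theorem SR_rs {r : ℝ} {g : ℕ} (hg : 1 ≤ g) {f : ℚ⟦X⟧} (h : SR r f) : SR (r / g) (rs g f) := by
  unfold SR at h ⊢
  refine h.congr fun m => ?_
  rw [coeff_rs]
  have hg0 : (g : ℝ) ≠ 0 := by exact_mod_cast (by omega : g ≠ 0)
  push_cast
  rw [abs_mul, abs_of_nonneg (by positivity : (0 : ℝ) ≤ (g : ℝ) ^ m), div_pow]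
  field_simp

/-- small positive numbers are no zeros -/
theorem no_root {T : Polynomial ℤ} (hT : T ≠ 0) : ∃ r : ℝ, 0 < r ∧ ∀ x : ℝ, 0 < x → x < r → Polynomial.aeval x T ≠ 0 := by
  classical
  set S : Finset ℝ := (T.map (Int.castRingHom ℝ)).roots.toFinset with hS
  have hT' : T.map (Int.castRingHom ℝ) ≠ 0 := by
    rwa [Ne, Polynomial.map_eq_zero_iff (Int.castRingHom ℝ).injective_int]
  set P : Finset ℝ := insert 1 (S.filter fun x => 0 < x) with hP
  have hPne : P.Nonempty := ⟨1, Finset.mem_insert_self _ _⟩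
  refine ⟨P.min' hPne, ?_, fun x hx0 hx hx2 => ?_⟩
  · have h1 := P.min'_mem hPne
    rcases Finset.mem_insert.1 h1 with h2 | h2
    · rw [h2]; exact one_pos
    · exact (Finset.mem_filter.1 h2).2
  · have h1 : x ∈ P := by
      refine Finset.mem_insert_of_mem (Finset.mem_filter.2 ⟨?_, hx0⟩)
      rw [hS, Multiset.mem_toFinset, Polynomial.mem_roots hT', Polynomial.IsRoot.def, Polynomial.eval_map]
      exact hx2
    exact absurd (P.min'_le x h1) (not_le.2 hx)

theorem aeval_ts (g : ℕ) (T : Polynomial ℤ) (x : ℝ) : Polynomial.aeval x (ts g T) = Polynomial.aeval (g * x) T := by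
  unfold ts
  rw [Polynomial.aeval_comp]
  simp

theorem finite_part {N Δ : ℕ} {σ : Type} [Fintype σ] [DecidableEq σ] (s : {s // s ∈ expoI (Fin N × σ) Δ}) (l : Fin N) :
    (Finsupp.equivFunOnFinite.symm fun j => s.1 (l, j) : σ →₀ ℕ) ∈ expoI σ Δ := by
  rw [mem_expoI]
  have h1 := mem_expoI.1 s.2
  rw [Fintype.sum_prod_type] at h1
  have h2 := Finset.single_le_sum (f := fun i => ∑ j, s.1 (i, j)) (fun _ _ => Nat.zero_le _) (Finset.mem_univ l)
  refine le_trans ?_ h1
  simpa using h2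

/-- the input of the window theorems -/
theorem Good.inp {σ : Type} [Fintype σ] [DecidableEq σ] {f : σ → ℚ⟦X⟧} (h : Good f) :
    ∃ Ev : ℕ → ℕ → ℕ, Pool.Agent.Y916.Om.Inp (Ω := ℂ) Ev (fun t : ℕ => t) (fun t g s => hv f ((g : ℝ) / t) s) := by
  classical
  obtain ⟨r, hr0, hr⟩ := h.conv
  have key : ∀ N Δ : ℕ, ∃ Ev : ℕ, ∀ (H t : ℕ), (H + 2) ^ Ev ≤ t → ∀ g : Fin N → ℕ, Function.Injective g →
      (∀ l, 1 ≤ g l ∧ g l ≤ H) → Pool.Agent.Y916.Om.NoRel (fun x : Fin N × σ => hv f ((g x.1 : ℝ) / t) x.2) Δ := by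
    intro N Δ
    obtain ⟨κ, _, q₀, C₀, T, Y, i₀, ε, hT, hY, hi₀, hε, hYε, hLI⟩ := h.sys Δ
    obtain ⟨q, E₁, hE₁⟩ := gprod hY N
    obtain ⟨E₂, hE₂⟩ := t_G (Fintype.card (Fin N → κ)) q
    obtain ⟨r₁, hr₁, hroot⟩ := no_root hT
    obtain ⟨e, he⟩ := exists_pow_lt_of_lt_one (lt_min (lt_min hr0 hr₁) (div_pos one_pos (show (0 : ℝ) < C₀ + 1 by
      linarith [hY.one_le]))) (by norm_num : (1 / 2 : ℝ) < 1)
    refine ⟨e + 1 + (E₁ + 1) * E₂, fun H t ht g hg hgb => ?_⟩
    have hH2 := one_le_base H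
    have htR : ((H : ℝ) + 2) ^ (e + 1 + (E₁ + 1) * E₂) ≤ t := by exact_mod_cast ht
    have hH0 : (0 : ℝ) ≤ H := Nat.cast_nonneg H
    have ht0 : (0 : ℝ) < t := lt_of_lt_of_le (by positivity) htR
    -- the points are small
    have hsm : ∀ l, 0 < (g l : ℝ) / t ∧ (g l : ℝ) / t < min (min r r₁) (1 / (C₀ + 1)) := by
      intro l
      have h1 : (1 : ℝ) ≤ g l := by exact_mod_cast (hgb l).1
      have h2 : (g l : ℝ) ≤ H := by exact_mod_cast (hgb l).2
      refine ⟨by positivity, lt_of_le_of_lt ?_ he⟩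
      rw [div_le_iff₀ ht0]
      have h3 : ((H : ℝ) + 2) ^ (e + 1) ≤ t := (pow_le_pow_right₀ hH2 (by omega)).trans htR
      have h4 : (2 : ℝ) ^ e ≤ ((H : ℝ) + 2) ^ e := pow_le_pow_left₀ (by norm_num) (by linarith) _
      have h5 : (1 / 2 : ℝ) ^ e * (2 : ℝ) ^ e = 1 := by rw [← mul_pow]; norm_num
      calc (g l : ℝ) ≤ (H : ℝ) + 2 := by linarith
        _ = (1 / 2 : ℝ) ^ e * ((2 : ℝ) ^ e * ((H : ℝ) + 2)) := by rw [← mul_assoc, h5, one_mul]
        _ ≤ (1 / 2 : ℝ) ^ e * (((H : ℝ) + 2) ^ e * ((H : ℝ) + 2)) := by gcongr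
        _ = (1 / 2 : ℝ) ^ e * ((H : ℝ) + 2) ^ (e + 1) := by rw [pow_succ]
        _ ≤ _ := by gcongr
    -- convergence
    have hSRY : ∀ i, SR (1 / (C₀ + 1)) (Y i) := by
      intro i
      have hC1 := hY.one_le
      refine Pool.Agent.Y37.GF.SR.of_bound (A := C₀) (B := C₀) (by positivity) (by positivity) ?_ fun m => ?_
      · rw [mul_one_div, div_lt_one (by positivity)]; linarith
      · rw [← pow_succ']
        exact hY.size i m
    have hzt : ∀ l, |(1 : ℝ) / t| ≤ 1 / (C₀ + 1) / g l := by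
      intro l
      have h1 : (0 : ℝ) < g l := by exact_mod_cast (hgb l).1
      rw [abs_of_nonneg (by positivity), le_div_iff₀ h1]
      have h2 := ((hsm l).2.trans_le (min_le_right _ _)).le
      calc 1 / (t : ℝ) * g l = g l / t := by ring
        _ ≤ _ := h2
    have hev : ∀ b : Fin N → κ, ev t (pms Y g b) = ∏ l, E (Y (b l)) ((g l : ℝ) / t) := by
      intro b
      rcases Nat.eq_zero_or_pos N with hN | hN
      · subst hN
        simp only [pms, Finset.univ_eq_empty, Finset.prod_empty]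
        rw [Pool.Agent.Y37.GF.ev_eq, Pool.Agent.Y37.GF.E_one]
      · -- a common radius
        obtain ⟨l₀, -, hl₀⟩ := Finset.exists_max_image (Finset.univ : Finset (Fin N)) g ⟨⟨0, hN⟩, Finset.mem_univ _⟩
        have hR : ∀ l, SR (1 / (C₀ + 1) / g l₀) (rs (g l) (Y (b l))) := by
          intro l
          have h1 : (0 : ℝ) < g l := by exact_mod_cast (hgb l).1
          have h2 : (0 : ℝ) < g l₀ := by exact_mod_cast (hgb l₀).1
          have h3 : (g l : ℝ) ≤ g l₀ := by exact_mod_cast hl₀ l (Finset.mem_univ _)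
          have hC1 := hY.one_le
          refine (SR_rs (hgb l).1 (hSRY (b l))).mono (by positivity) ?_
          gcongr
        have hC1 := hY.one_le
        rw [Pool.Agent.Y37.GF.ev_eq, pms, Pool.Agent.Y37.GF.E_prod _ (by positivity) (fun l _ => hR l) (hzt l₀)]
        refine Finset.prod_congr rfl fun l _ => ?_
        rw [E_rs]
        congr 1
        ring
    -- linear independence of the values
    have hone : pms Y g (fun _ => i₀) = 1 := by
      unfold pms
      simp [hi₀, rs_one]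
    have hTne : Polynomial.aeval (1 / (t : ℝ)) (PTs T g) ≠ 0 := by
      unfold PTs
      rw [map_prod, Finset.prod_ne_zero_iff]
      intro l _
      rw [aeval_ts]
      have h1 : (g l : ℝ) * (1 / t) = g l / t := by ring
      rw [h1]
      exact hroot _ (hsm l).1 ((hsm l).2.trans_le ((min_le_left _ _).trans (min_le_right _ _)))
    have hbig : (2 * ((H : ℝ) + 2) ^ E₁) ^ E₂ ≤ (t : ℝ) :=
      (pow_base H _ _).trans ((pow_le_pow_right₀ hH2 (by omega)).trans htR)
    have hind := hE₂ (Fin N → κ) (((H : ℝ) + 2) ^ E₁) (PTs T g) (pms Y g) (fun _ => i₀) t le_rfl (hE₁ H g hgb) hone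
      (hLI N g hg fun l => (hgb l).1) hbig hTne
    -- the relation
    intro P hPd hPv
    set Φ : {s // s ∈ expoI (Fin N × σ) Δ} → (Fin N → κ) := fun s l =>
      ε ⟨Finsupp.equivFunOnFinite.symm fun j => s.1 (l, j), finite_part s l⟩ with hΦ
    have hΦi : Function.Injective Φ := by
      intro s s' hss
      apply Subtype.ext
      ext ⟨l, j⟩
      have h1 := congrFun hss l
      have h2 := congrArg Subtype.val (hε h1)
      have h3 := DFunLike.congr_fun h2 j
      simpa using h3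
    have hvals : ∀ s : {s // s ∈ expoI (Fin N × σ) Δ}, ev t (pms Y g (Φ s)) =
        ∏ p : Fin N × σ, E (f p.2) ((g p.1 : ℝ) / t) ^ s.1 p := by
      intro s
      rw [hev, Fintype.prod_prod_type]
      refine Finset.prod_congr rfl fun l _ => ?_
      have hx : |(g l : ℝ) / t| ≤ r := by
        rw [abs_of_pos (hsm l).1]
        exact ((hsm l).2.trans_le ((min_le_left _ _).trans (min_le_left _ _))).le
      rw [hΦ]
      simp only
      rw [hYε, Pool.Agent.Y37.GF.E_prod _ hr0.le (fun i _ => (hr i).pow hr0.le _) hx]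
      refine Finset.prod_congr rfl fun j _ => ?_
      rw [Pool.Agent.Y37.GF.E_pow hr0.le (hr j) hx]
      simp
    have hind2 := hind.comp Φ hΦi
    have hPm : MvPolynomial.aeval (fun x : Fin N × σ => hv f ((g x.1 : ℝ) / t) x.2)
        (MvPolynomial.map (algebraMap ℚ ℂ) P) = 0 := by
      rw [MvPolynomial.aeval_map_algebraMap]
      exact hPv
    have hPmd : (MvPolynomial.map (algebraMap ℚ ℂ) P).totalDegree ≤ Δ := by
      refine le_trans (le_of_eq ?_) hPd
      unfold MvPolynomial.totalDegree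
      rw [MvPolynomial.support_map_of_injective _ (algebraMap ℚ ℂ).injective]
    rw [aeval_expoI hPmd] at hPm
    have hreal : ∑ s : {s // s ∈ expoI (Fin N × σ) Δ}, P.coeff s.1 • (ev t ∘ pms Y g ∘ Φ) s = 0 := by
      have h1 : ((∑ s : {s // s ∈ expoI (Fin N × σ) Δ}, P.coeff s.1 • (ev t ∘ pms Y g ∘ Φ) s : ℝ) : ℂ) = 0 := by
        rw [← hPm]
        push_cast
        refine Finset.sum_congr rfl fun s _ => ?_
        rw [MvPolynomial.coeff_map]
        simp only [Function.comp_apply]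
        rw [hvals s, Rat.smul_def]
        push_cast
        rfl
      exact_mod_cast h1
    have hz := Fintype.linearIndependent_iff.1 hind2 (fun s => P.coeff s.1) hreal
    have h0 : MvPolynomial.map (algebraMap ℚ ℂ) P = 0 := by
      refine eq_zero_of_expoI hPmd fun s hs => ?_
      rw [MvPolynomial.coeff_map, hz ⟨s, hs⟩, map_zero]
    exact (MvPolynomial.map_injective _ (algebraMap ℚ ℂ).injective) (h0.trans (map_zero _).symm)
  choose Ev hEv using key
  exact ⟨Ev, fun N Δ H t ht g hg hgb => hEv N Δ H t ht g hg hgb⟩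

open Pool.Agent.Y916.Om Pool.Agent.X120.Rec in
/-- **few bad terms of a geometric sequence** -/
theorem Good.few {σ : Type} [Fintype σ] [DecidableEq σ] {f : σ → ℚ⟦X⟧} (h : Good f) {a b c : ℕ} (ha : 1 ≤ a)
    (hb : 2 ≤ b) (hc : 1 ≤ c) : Few (fun n s => hv f ((a : ℝ) / (c * (b : ℝ) ^ n)) s) := by
  classical
  intro d δ e τ A B
  obtain ⟨Ev, hInp⟩ := h.inp
  obtain ⟨Ew, hwin⟩ := win1 Ev (σ := σ) d δ e τ A B
  obtain ⟨C, hC, hcov⟩ := cover (Ew * (a + 2) + 1) τ (by omega)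
  refine ⟨C, hC, fun υ _ w T hT hD => hcov _ fun i => ?_⟩
  set q := Ew * (a + 2) + 1 with hq
  by_cases hi : q * 3 ≤ i
  swap
  · exact ⟨∅, by simp, fun j hj => absurd (le_trans (Nat.mul_le_mul_left _ (by omega)) hj) hi⟩
  set J := i / q - 3 with hJ
  have hJ3 : J + 3 = i / q := by
    have : 3 ≤ i / q := (Nat.le_div_iff_mul_le (by omega)).2 (by rw [mul_comm]; exact hi)
    omega
  have hJi : q * (J + 3) ≤ i := by
    rw [hJ3]
    exact Nat.mul_div_le _ _
  set H : ℕ := a * b ^ J with hH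
  have hH2 : H + 2 ≤ b ^ (J + a + 2) := by
    have h1 : 1 ≤ b ^ J := Nat.one_le_pow _ _ (by omega)
    have h2 : a + 2 ≤ b ^ (a + 2) := (Nat.lt_pow_self (by omega)).le
    calc H + 2 ≤ (a + 2) * b ^ J := by rw [hH]; nlinarith
      _ ≤ b ^ (a + 2) * b ^ J := Nat.mul_le_mul_right _ h2
      _ = _ := by rw [← pow_add]; congr 1; ring
  have hHE : (H + 2) ^ Ew ≤ c * b ^ (i + J) := by
    calc (H + 2) ^ Ew ≤ (b ^ (J + a + 2)) ^ Ew := Nat.pow_le_pow_left hH2 _
      _ = b ^ ((J + a + 2) * Ew) := by rw [← pow_mul]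
      _ ≤ b ^ (i + J) := by
          refine Nat.pow_le_pow_right (by omega) ?_
          have h0 : J + a + 2 ≤ (a + 2) * (J + 3) := by nlinarith [Nat.zero_le (a * J)]
          have h1 : (J + a + 2) * Ew ≤ (Ew * (a + 2)) * (J + 3) := by
            calc (J + a + 2) * Ew ≤ ((a + 2) * (J + 3)) * Ew := Nat.mul_le_mul_right _ h0
              _ = _ := by ring
          have h2 : (Ew * (a + 2)) * (J + 3) ≤ q * (J + 3) := Nat.mul_le_mul_right _ (by omega)
          omega
      _ ≤ _ := Nat.le_mul_of_pos_left _ (by omega)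
  obtain ⟨S₀, hS₀, hw⟩ := hwin ℂ ℕ (fun t => t) _ hInp H (c * b ^ (i + J)) hHE υ w T hT hD
  have hbinj : ∀ j j', j ≤ J → j' ≤ J → a * b ^ (J - j) = a * b ^ (J - j') → j = j' := by
    intro j j' hj hj' h1
    have h2 : b ^ (J - j) = b ^ (J - j') := Nat.eq_of_mul_eq_mul_left (by omega) h1
    have h3 := Nat.pow_right_injective hb h2
    omega
  set G : ℕ → ℕ := fun g => if h : ∃ j, j ≤ J ∧ a * b ^ (J - j) = g then i + h.choose else 0 with hG
  refine ⟨S₀.image G, Finset.card_image_le.trans hS₀, fun j hj hbad => ?_⟩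
  have hjJ : j ≤ J := by
    have h1 : j + 3 ≤ i / q := (Nat.le_div_iff_mul_le (by omega)).2 (by rw [mul_comm]; exact hj)
    omega
  by_contra hcon
  refine hw (a * b ^ (J - j)) (Nat.mul_pos (by omega) (by positivity)) ?_ ?_ ?_
  · exact Nat.mul_le_mul_left _ (Nat.pow_le_pow_right (by omega) (by omega))
  · intro hmem
    apply hcon
    refine Finset.mem_image.2 ⟨_, hmem, ?_⟩
    have hex : ∃ j', j' ≤ J ∧ a * b ^ (J - j') = a * b ^ (J - j) := ⟨j, hjJ, rfl⟩
    rw [hG]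
    simp only
    rw [dif_pos hex, hbinj _ _ hex.choose_spec.1 hjJ hex.choose_spec.2]
  · have hpt : (((a * b ^ (J - j) : ℕ) : ℝ) / ((c * b ^ (i + J) : ℕ) : ℝ)) = (a : ℝ) / (c * (b : ℝ) ^ (i + j)) := by
      have hb0 : (b : ℝ) ≠ 0 := by exact_mod_cast (by omega : b ≠ 0)
      have hc0 : (c : ℝ) ≠ 0 := by exact_mod_cast (by omega : c ≠ 0)
      have h1 : (b : ℝ) ^ (i + J) = (b : ℝ) ^ (i + j) * (b : ℝ) ^ (J - j) := by
        rw [← pow_add]
        congr 1
        omega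
      push_cast
      rw [h1]
      field_simp
    simp only [hpt]
    exact hbad

end Pool.Agent.X120.Geo
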