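import Pool.Agent.X120.Geo.Tup
import Pool.Agent.Y124.TD.Mx

/-!
# Lower bounds for the transcendence degree in bounded degree, without exceptions

The lemmas `gr_li'`, `LIb_comp`, `LIb_mv` are copied from `Pool/Agent/Y124/TD/Ap.lean` and `Pool/Agent/Y124/TD/Ap2.lean`.
-/

set_option autoImplicit false

open Module Finset

namespace Pool.Agent.X120.Geo

open Pool.Agent.Y124.TD Pool.Agent.Y120.GF

theorem gr_li' (c e r d : ℕ) (her : e < r) : ∃ N : ℕ, ∀ (K : IntermediateField ℚ ℂ) (W : Submodule K ℂ), (1 : ℂ) ∈ W → GR c e W →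
    ∀ (ι : Type) [Fintype ι], Fintype.card ι = r → ∀ (x : ι → ℂ) (p : ℂ), p ≠ 0 → p ∈ W ^ d → (∀ i, p * x i ∈ W ^ d) →
      ¬ LinearIndependent ℚ (fun s : ι → Fin (N + 1) => ∏ i, x i ^ (s i : ℕ)) := by
  obtain ⟨N, hN⟩ := gr_li c e r d her
  refine ⟨N, ?_⟩
  intro K W h1 h ι _ hι x p hp0 hp hpx hLI
  let φ : Fin r ≃ ι := (Fintype.equivFinOfCardEq hι).symm
  refine hN K W h1 h (fun i => x (φ i)) p hp0 hp (fun i => hpx _) ?_
  have h2 := hLI.comp (fun (s : Fin r → Fin (N + 1)) (i : ι) => s (φ.symm i)) (by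
    intro s s' hss
    funext i
    have h3 := congrFun hss (φ i)
    simpa using h3)
  have h4 : (fun s : Fin r → Fin (N + 1) => ∏ i, x (φ i) ^ (s i : ℕ)) =
      (fun s : ι → Fin (N + 1) => ∏ i, x i ^ (s i : ℕ)) ∘ fun (s : Fin r → Fin (N + 1)) (i : ι) => s (φ.symm i) := by
    funext s
    show _ = ∏ i, x i ^ (s (φ.symm i) : ℕ)
    rw [← Equiv.prod_comp φ (fun i => x i ^ (s (φ.symm i) : ℕ))]
    refine Finset.prod_congr rfl fun i _ => ?_
    rw [Equiv.symm_apply_apply]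
  rw [h4]
  exact h2

/-- subfamilies -/
theorem LIb_comp {K : IntermediateField ℚ ℂ} {δ e e' : ℕ} {z : Fin e → ℂ} (h : LIb K δ z) (f : Fin e' → Fin e)
    (hf : Function.Injective f) : LIb K δ (fun i => z (f i)) := by
  classical
  have h2 := LinearIndependent.comp h (fun s : Fin e' → Fin (δ + 1) => Function.extend f s (fun _ => 0)) (by
    intro s s' hss
    funext i
    have h3 := congrFun hss (f i)
    simp only [hf.extend_apply] at h3
    exact h3)
  have h4 : (fun s : Fin e' → Fin (δ + 1) => ∏ i, z (f i) ^ (s i : ℕ)) =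
      (fun s : Fin e → Fin (δ + 1) => ∏ i, z i ^ (s i : ℕ)) ∘ fun s : Fin e' → Fin (δ + 1) => Function.extend f s (fun _ => 0) := by
    funext s
    show _ = ∏ i, z i ^ ((Function.extend f s (fun _ => (0 : Fin (δ + 1))) i : Fin (δ + 1)) : ℕ)
    rw [← Finset.prod_subset (Finset.subset_univ (Finset.univ.image f))]
    · rw [Finset.prod_image fun i _ j _ hij => hf hij]
      refine Finset.prod_congr rfl fun i _ => ?_
      rw [hf.extend_apply]
    · intro i _ hi
      rw [Function.extend_apply']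
      · simp
      · rintro ⟨j, rfl⟩
        exact hi (Finset.mem_image_of_mem _ (Finset.mem_univ _))
  rw [LIb, h4]
  exact h2

/-- relations in bounded degree -/
theorem LIb_mv {K : IntermediateField ℚ ℂ} {δ e : ℕ} {z : Fin e → ℂ} (h : LIb K δ z) (P : MvPolynomial (Fin e) K)
    (hP : ∀ i, P.degreeOf i ≤ δ) (h0 : MvPolynomial.aeval z P = 0) : P = 0 := by
  classical
  let f : (Fin e → Fin (δ + 1)) → (Fin e →₀ ℕ) := fun s => Finsupp.equivFunOnFinite.symm fun i => (s i : ℕ)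
  have hf : Function.Injective f := by
    intro s s' hss
    funext i
    exact Fin.ext (DFunLike.congr_fun hss i)
  have hsub : P.support ⊆ Finset.univ.image f := by
    intro m hm
    rw [Finset.mem_image]
    refine ⟨fun i => ⟨m i, Nat.lt_succ_of_le ?_⟩, Finset.mem_univ _, ?_⟩
    · refine le_trans ?_ (hP i)
      rw [MvPolynomial.degreeOf_eq_sup]
      exact Finset.le_sup (f := fun m : Fin e →₀ ℕ => m i) hm
    · ext i
      rfl
  have h1 := (Fintype.linearIndependent_iff.1 h) (fun s => P.coeff (f s)) (by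
    rw [← h0, MvPolynomial.aeval_def, MvPolynomial.eval₂_eq', Finset.sum_subset hsub, Finset.sum_image fun s _ s' _ hss => hf hss]
    · refine Finset.sum_congr rfl fun s _ => ?_
      rw [Algebra.smul_def]
      rfl
    · intro m _ hm
      rw [MvPolynomial.notMem_support_iff.1 hm, map_zero, zero_mul])
  refine MvPolynomial.ext _ _ fun m => ?_
  rw [MvPolynomial.coeff_zero]
  by_contra hne
  obtain ⟨s, -, rfl⟩ := Finset.mem_image.1 (hsub (MvPolynomial.mem_support_iff.2 hne))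
  exact hne (h1 s)

/-- no relations: linear independence of the monomials -/
theorem li_of_norel {ι : Type} [Fintype ι] [DecidableEq ι] {x : ι → ℂ} {N : ℕ}
    (h : Pool.Agent.Y916.Om.NoRel x (Fintype.card ι * N)) :
    LinearIndependent ℚ (fun s : ι → Fin (N + 1) => ∏ i, x i ^ (s i : ℕ)) := by
  classical
  rw [Fintype.linearIndependent_iff]
  intro g hg s₀
  set f : (ι → Fin (N + 1)) → (ι →₀ ℕ) := fun s => Finsupp.equivFunOnFinite.symm fun i => (s i : ℕ) with hf
  have hfi : Function.Injective f := by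
    intro s s' hss
    funext i
    exact Fin.ext (DFunLike.congr_fun hss i)
  set P : MvPolynomial ι ℚ := ∑ s, MvPolynomial.monomial (f s) (g s) with hP
  have hP0 : P = 0 := by
    refine h P ?_ ?_
    · refine MvPolynomial.totalDegree_finsetSum_le fun s _ => ?_
      refine (MvPolynomial.totalDegree_monomial_le _ _).trans ?_
      rw [Finsupp.sum_fintype _ _ (fun _ => rfl)]
      refine (Finset.sum_le_card_nsmul _ _ N fun i _ => ?_).trans ?_
      · exact Nat.lt_succ_iff.1 (s i).2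
      · rw [Finset.card_univ, smul_eq_mul]
    · rw [hP, map_sum, ← hg]
      refine Finset.sum_congr rfl fun s _ => ?_
      rw [MvPolynomial.aeval_monomial, Finsupp.prod_fintype _ _ (fun _ => pow_zero _), Algebra.smul_def]
      rfl
  have h1 : P.coeff (f s₀) = g s₀ := by
    rw [hP, MvPolynomial.coeff_sum, Finset.sum_eq_single s₀]
    · rw [MvPolynomial.coeff_monomial, if_pos rfl]
    · intro s _ hs
      rw [MvPolynomial.coeff_monomial, if_neg fun h2 => hs (hfi h2)]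
    · intro h2
      exact absurd (Finset.mem_univ _) h2
  rw [← h1, hP0, MvPolynomial.coeff_zero]

/-- **lower bound**: if the values are rational functions, with common denominator, of the constants `u` and the numbers
`z`, then many of the numbers `z` are independent in bounded degree -/
theorem Good.low {σ : Type} [Fintype σ] [DecidableEq σ] {f : σ → PowerSeries ℚ} (h : Good f) (k δ D c₀ d n : ℕ) :
    ∃ E : ℕ, ∀ (H t : ℕ), (H + 2) ^ E ≤ t → ∀ g : Fin k → ℕ, Function.Injective g → (∀ l, 1 ≤ g l ∧ g l ≤ H) →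
      ∀ (K : IntermediateField ℚ ℂ) [FiniteDimensional ℚ K], finrank ℚ K ≤ D → ∀ (u : Fin c₀ → ℂ) (ι : Type) [Fintype ι],
      Fintype.card ι = n → ∀ z : ι → ℂ, (∀ W : Submodule K ℂ, (1 : ℂ) ∈ W → (∀ j, u j ∈ W) → (∀ a, z a ∈ W) →
        ∃ p : ℂ, p ≠ 0 ∧ p ∈ W ^ d ∧ ∀ l s, p * hv f ((g l : ℝ) / t) s ∈ W ^ d) →
      ∃ τ : Fin (k * Fintype.card σ - c₀) → ι, Function.Injective τ ∧ LIb K δ (fun i => z (τ i)) := by
  classical
  obtain ⟨Ev, hInp⟩ := h.inp
  set r := k * Fintype.card σ with hr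
  -- the exponents
  have key : ∀ e : ℕ, ∃ E : ℕ, e + c₀ < r → ∀ (H t : ℕ), (H + 2) ^ E ≤ t → ∀ g : Fin k → ℕ, Function.Injective g →
      (∀ l, 1 ≤ g l ∧ g l ≤ H) → ∀ (K : IntermediateField ℚ ℂ) [FiniteDimensional ℚ K], finrank ℚ K ≤ D →
      ∀ (u : Fin c₀ → ℂ) (ι : Type) [Fintype ι],
      Fintype.card ι = n → ∀ z : ι → ℂ, (∀ W : Submodule K ℂ, (1 : ℂ) ∈ W → (∀ j, u j ∈ W) → (∀ a, z a ∈ W) →
        ∃ p : ℂ, p ≠ 0 ∧ p ∈ W ^ d ∧ ∀ l s, p * hv f ((g l : ℝ) / t) s ∈ W ^ d) →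
      ∀ τ : Fin e → ι, e ≤ Fintype.card ι → LIb K δ (fun i => z (τ i)) →
        ¬ ∀ a, a ∉ Set.range τ → ¬ LIb K δ (Fin.cons (z a) (fun i => z (τ i)) : Fin (e + 1) → ℂ) := by
    intro e
    by_cases he : e + c₀ < r
    swap
    · exact ⟨0, fun h => absurd h he⟩
    obtain ⟨c₁, hc₁⟩ := gr_max D (0 + c₀) δ n
    obtain ⟨N, hN⟩ := gr_li' c₁ (0 + c₀ + e) r d (by omega)
    refine ⟨Ev k (Fintype.card (Fin k × σ) * N), fun _ H t ht g hg hgb K _ hK u ι _ hι z hz τ hek hLI hmax => ?_⟩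
    have h10 : (1 : ℂ) ∈ (1 : Submodule K ℂ) := Submodule.one_le.1 le_rfl
    obtain ⟨W₁, hW₁, hu₁, hG₁⟩ := gr_fam D c₀ 0 (1 : Submodule K ℂ) h10 (gr_one hK) u
    obtain ⟨W₂, hW₂, hz₂, hG₂⟩ := hc₁ K W₁ (hW₁ h10) hG₁ ι hι z e τ hek hLI hmax
    obtain ⟨p, hp0, hp, hpx⟩ := hz W₂ (hW₂ (hW₁ h10)) (fun j => hW₂ (hu₁ j)) hz₂
    refine hN K W₂ (hW₂ (hW₁ h10)) hG₂ (Fin k × σ) (by rw [Fintype.card_prod, Fintype.card_fin])
      (fun q => hv f ((g q.1 : ℝ) / t) q.2) p hp0 hp (fun q => hpx q.1 q.2) ?_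
    exact li_of_norel (hInp k _ H t ht g hg hgb)
  choose E hE using key
  refine ⟨∑ e ∈ range r, E e, fun H t ht g hg hgb K _ hK u ι _ hι z hz => ?_⟩
  obtain ⟨e, τ, hτ, hek, hLI, hmax⟩ := exists_max K δ z
  have h1 : r - c₀ ≤ e := by
    by_contra hlt
    push Not at hlt
    have he : e + c₀ < r := by omega
    refine hE e he H t (le_trans (Nat.pow_le_pow_right (by omega) ?_) ht) g hg hgb K hK u ι hι z hz τ hek hLI hmax
    exact Finset.single_le_sum (f := E) (fun _ _ => Nat.zero_le _) (Finset.mem_range.2 (by omega))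
  exact ⟨fun i => τ (Fin.castLE h1 i), hτ.comp (Fin.castLE_injective h1),
    LIb_comp hLI (Fin.castLE h1) (Fin.castLE_injective h1)⟩

end Pool.Agent.X120.Geo
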