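import Pool.Agent.X120.Geo.Low
import Pool.Agent.TH659.AQ.Leg

/-!
# Periods of Legendre curves whose parameters lie in a multiplicative group: all tuples
-/

set_option autoImplicit false

open Module Finset

namespace Pool.Agent.X120.Geo

open Pool.Agent.Y124.TD Pool.Agent.Y120.GF

/-- the constant of Legendre's relation is one -/
theorem values_one : ∃ α : ℝ, ∀ (x : ℝ), 0 < x → x < 1 / 8 →
    Pool.Agent.Y113.KK x = Real.pi / 2 * Pool.Agent.Y37.GF.E (leg 0) x ∧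
    Pool.Agent.Y113.EE x = Real.pi / 2 * Pool.Agent.Y37.GF.E (leg 1) x ∧
    Pool.Agent.Y113.KK (1 - x) = Pool.Agent.Y37.GF.E (leg 2) x +
      (α - 1 / 2 * Real.log x) * Pool.Agent.Y37.GF.E (leg 0) x := by
  obtain ⟨α, β, hβ, hleg, hval⟩ := Pool.Agent.Y37.GF.values
  have h1 : β = 1 := by
    have h2 := hleg (1 / 2) (by norm_num) (by norm_num)
    have h3 := Pool.Agent.TH659.AQ.legHalf (1 / 2) (by norm_num) (by norm_num)
    have h4 : Real.pi / 2 * β = Real.pi / 2 := by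
      rw [← h2]
      exact h3
    have hpi : Real.pi / 2 ≠ 0 := by positivity
    field_simp at h4
    linarith
  refine ⟨α, fun x hx0 hx => ?_⟩
  obtain ⟨v1, v2, v3, -⟩ := hval 0 x hx0 (by norm_num; linarith)
  have hs0 : x / (1 - ((0 : ℕ) : ℝ) * x) = x := by simp
  rw [hs0] at v1 v2 v3
  refine ⟨v1, v2, ?_⟩
  rw [v3, h1]
  simp only [leg, Matrix.cons_val]
  ring

/-- the product of the powers of the `q j` -/
def mult {r : ℕ} (q : Fin r → ℕ) (n : Fin r → ℕ) : ℕ := ∏ j, q j ^ n j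

theorem mult_pos {r : ℕ} {q : Fin r → ℕ} (hq : ∀ j, 2 ≤ q j) (n : Fin r → ℕ) : 1 ≤ mult q n :=
  Nat.one_le_iff_ne_zero.2 (Finset.prod_ne_zero_iff.2 fun j _ => pow_ne_zero _ (by have := hq j; omega))

theorem two_pow_le_mult {r : ℕ} {q : Fin r → ℕ} (hq : ∀ j, 2 ≤ q j) (n : Fin r → ℕ) : 2 ^ (∑ j, n j) ≤ mult q n := by
  rw [← Finset.prod_pow_eq_pow_sum]
  exact Finset.prod_le_prod' fun j _ => Nat.pow_le_pow_left (hq j) _

theorem mult_le {r : ℕ} {q : Fin r → ℕ} {Q : ℕ} (hQ : ∀ j, q j ≤ 2 ^ Q) (n : Fin r → ℕ) :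
    mult q n ≤ 2 ^ (Q * ∑ j, n j) := by
  rw [Finset.mul_sum, ← Finset.prod_pow_eq_pow_sum]
  refine Finset.prod_le_prod' fun j _ => ?_
  rw [pow_mul]
  exact Nat.pow_le_pow_left (hQ j) _

/-- **all tuples** of Legendre curves with parameters `1 / ∏ q_j ^ n_j` in a window -/
theorem low_legendre {r : ℕ} (q : Fin r → ℕ) (hq : ∀ j, 2 ≤ q j) (k δ D : ℕ) :
    ∃ E : ℕ, 4 ≤ E ∧ ∀ (A : Fin r → ℕ) (n : Fin k → Fin r → ℕ), E ≤ ∑ j, A j →
      (∀ i j, A j ≤ n i j ∧ E * n i j ≤ E * A j + ∑ j, A j) → Function.Injective (fun i => mult q (n i)) →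
      ∀ (K : IntermediateField ℚ ℂ) [FiniteDimensional ℚ K], finrank ℚ K ≤ D →
        ∃ τ : Fin (k * 3 - (r + 2)) → Fin k × Fin 3, Function.Injective τ ∧
          LIb K δ (fun i => perL (1 / (mult q (n (τ i).1) : ℝ)) (τ i).2) := by
  classical
  obtain ⟨α, hval⟩ := values_one
  obtain ⟨E₁, hE₁⟩ := good_leg.low k δ D (r + 2) 2 (k * 3)
  set Q : ℕ := ∑ j, q j with hQ
  have hqQ : ∀ j, q j ≤ 2 ^ Q := fun j =>
    (Finset.single_le_sum (f := q) (fun _ _ => Nat.zero_le _) (Finset.mem_univ j)).trans Nat.lt_two_pow_self.le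
  refine ⟨2 * (Q * r * E₁) + 4 * E₁ + 4, by omega, fun A n hA hn hinj K _ hK => ?_⟩
  set E := 2 * (Q * r * E₁) + 4 * E₁ + 4 with hE
  set N := ∑ j, A j with hN
  set J := N / E with hJ
  have hJE : E * J ≤ N := Nat.mul_div_le _ _
  have hnJ : ∀ i j, n i j ≤ A j + J := by
    intro i j
    have h1 := (hn i j).2
    have h2 : n i j - A j ≤ J := by
      rw [hJ, Nat.le_div_iff_mul_le (by omega), mul_comm, Nat.mul_sub]
      omega
    omega
  set t := mult q (fun j => A j + J) with ht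
  set g : Fin k → ℕ := fun i => mult q (fun j => A j + J - n i j) with hg
  have hvg : ∀ i, g i * mult q (n i) = t := by
    intro i
    show (∏ j, q j ^ (A j + J - n i j)) * (∏ j, q j ^ n i j) = ∏ j, q j ^ (A j + J)
    rw [← Finset.prod_mul_distrib]
    refine Finset.prod_congr rfl fun j _ => ?_
    rw [← pow_add]
    congr 1
    have := hnJ i j
    omega
  have hg1 : ∀ i, 1 ≤ g i := fun i => mult_pos hq _
  have hginj : Function.Injective g := by
    intro i i' h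
    refine hinj ?_
    have h1 := hvg i
    have h2 := hvg i'
    rw [← h2, h] at h1
    exact Nat.eq_of_mul_eq_mul_left (hg1 i') h1
  set H : ℕ := 2 ^ (Q * (r * J)) with hH
  have hgH : ∀ i, g i ≤ H := by
    intro i
    refine (mult_le hqQ _).trans (Nat.pow_le_pow_right (by norm_num) (Nat.mul_le_mul_left _ ?_))
    refine (Finset.sum_le_card_nsmul _ _ J fun j _ => ?_).trans ?_
    · have := (hn i j).1
      clear_value J
      omega
    · rw [Finset.card_univ, Fintype.card_fin, smul_eq_mul]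
  have htN : 2 ^ N ≤ t := by
    refine le_trans (Nat.pow_le_pow_right (by norm_num) ?_) (two_pow_le_mult hq _)
    exact Finset.sum_le_sum fun j _ => Nat.le_add_right _ _
  have hHt : (H + 2) ^ E₁ ≤ t := by
    have h1 : H + 2 ≤ 2 ^ (Q * (r * J) + 2) := by
      rw [pow_add, hH]
      have : 1 ≤ 2 ^ (Q * (r * J)) := Nat.one_le_two_pow
      omega
    calc (H + 2) ^ E₁ ≤ (2 ^ (Q * (r * J) + 2)) ^ E₁ := Nat.pow_le_pow_left h1 _
      _ = 2 ^ ((Q * (r * J) + 2) * E₁) := by rw [← pow_mul]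
      _ ≤ 2 ^ N := by
          refine Nat.pow_le_pow_right (by norm_num) ?_
          have h2 : 2 * ((Q * (r * J) + 2) * E₁) ≤ E * J + E := by
            have h3 : 2 * ((Q * (r * J) + 2) * E₁) = 2 * (Q * r * E₁) * J + 4 * E₁ := by ring
            have h4 : 2 * (Q * r * E₁) * J ≤ E * J := Nat.mul_le_mul_right _ (by omega)
            omega
          omega
      _ ≤ t := htN
  have hv1 : ∀ i, 16 ≤ mult q (n i) := by
    intro i
    have h1 : 4 ≤ ∑ j, n i j := by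
      have h2 : N ≤ ∑ j, n i j := Finset.sum_le_sum fun j _ => (hn i j).1
      omega
    calc 16 = 2 ^ 4 := by norm_num
      _ ≤ 2 ^ (∑ j, n i j) := Nat.pow_le_pow_right (by norm_num) h1
      _ ≤ _ := two_pow_le_mult hq _
  have hxg : ∀ i, (g i : ℝ) / t = 1 / (mult q (n i) : ℝ) := by
    intro i
    have h1 : (t : ℝ) = g i * mult q (n i) := by exact_mod_cast (hvg i).symm
    have h2 : (g i : ℝ) ≠ 0 := by
      have := hg1 i
      exact_mod_cast (by omega : g i ≠ 0)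
    rw [h1]
    field_simp
  -- the constants
  set u : Fin (r + 2) → ℂ := Fin.append (fun j : Fin r => ((Real.log (q j) : ℝ) : ℂ)) ![(Real.pi : ℂ), (α : ℂ)] with hu
  have hpi : (Real.pi : ℂ) ≠ 0 := by exact_mod_cast Real.pi_ne_zero
  refine hE₁ H t hHt g hginj (fun i => ⟨hg1 i, hgH i⟩) K hK u (Fin k × Fin 3)
    (by rw [Fintype.card_prod, Fintype.card_fin, Fintype.card_fin])
    (fun y => perL (1 / (mult q (n y.1) : ℝ)) y.2) (fun W h1 hW hz => ?_)
  have mQ : ∀ (c : ℚ) (m : ℕ) {x : ℂ}, x ∈ W ^ m → (c : ℂ) * x ∈ W ^ m := by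
    intro c m x hx
    have h2 : (c : ℂ) * x = (algebraMap ℚ K c) • x := by
      rw [Algebra.smul_def]
      rfl
    rw [h2]
    exact Submodule.smul_mem _ _ hx
  have m1 : ∀ {x : ℂ}, x ∈ W → x ∈ W ^ 1 := fun hx => by rwa [pow_one]
  have hπ : (Real.pi : ℂ) ∈ W := by
    have := hW (Fin.natAdd r 0)
    rw [hu, Fin.append_right] at this
    simpa using this
  have hα : (α : ℂ) ∈ W := by
    have := hW (Fin.natAdd r 1)
    rw [hu, Fin.append_right] at this
    simpa using this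
  have hlq : ∀ j, ((Real.log (q j) : ℝ) : ℂ) ∈ W := by
    intro j
    have := hW (Fin.castAdd 2 j)
    rw [hu, Fin.append_left] at this
    exact this
  refine ⟨Real.pi, hpi, pow_mem_mono h1 (by norm_num) (m1 hπ), fun l s => ?_⟩
  rw [hxg l]
  set x : ℝ := 1 / (mult q (n l) : ℝ) with hx
  have hv0 : (16 : ℝ) ≤ (mult q (n l) : ℝ) := by exact_mod_cast hv1 l
  have hx0 : 0 < x := by positivity
  have hx8 : x < 1 / 8 := by
    rw [hx]
    exact one_div_lt_one_div_of_lt (by norm_num) (by linarith)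
  obtain ⟨v1, v2, v3⟩ := hval x hx0 hx8
  have hKm : (Pool.Agent.Y113.KK x : ℂ) ∈ W := hz (l, 0)
  have hEm : (Pool.Agent.Y113.EE x : ℂ) ∈ W := hz (l, 1)
  have hK'm : (Pool.Agent.Y113.KK (1 - x) : ℂ) ∈ W := hz (l, 2)
  have e1 : (Real.pi : ℂ) * (Pool.Agent.Y37.GF.E (leg 0) x : ℂ) = ((2 : ℚ) : ℂ) * (Pool.Agent.Y113.KK x : ℂ) := by
    rw [v1]; push_cast; ring
  have e2 : (Real.pi : ℂ) * (Pool.Agent.Y37.GF.E (leg 1) x : ℂ) = ((2 : ℚ) : ℂ) * (Pool.Agent.Y113.EE x : ℂ) := by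
    rw [v2]; push_cast; ring
  have hlog : Real.log x = - ∑ j, (n l j : ℝ) * Real.log (q j) := by
    rw [hx, one_div, Real.log_inv, mult]
    push_cast
    rw [Real.log_prod (fun j _ => pow_ne_zero _ (by
      have := hq j
      exact_mod_cast (by omega : q j ≠ 0)))]
    congr 1
    exact Finset.sum_congr rfl fun j _ => Real.log_pow _ _
  have hlogW : ((Real.log x : ℝ) : ℂ) ∈ W ^ 1 := by
    rw [hlog]
    push_cast
    refine Submodule.neg_mem _ (Submodule.sum_mem _ fun j _ => ?_)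
    have := mQ (n l j : ℚ) 1 (m1 (hlq j))
    push_cast at this ⊢
    exact this
  have e3 : (Real.pi : ℂ) * (Pool.Agent.Y37.GF.E (leg 2) x : ℂ) = (Real.pi : ℂ) * (Pool.Agent.Y113.KK (1 - x) : ℂ) -
      ((2 : ℚ) : ℂ) * ((α : ℂ) * (Pool.Agent.Y113.KK x : ℂ)) +
      ((1 : ℚ) : ℂ) * (((Real.log x : ℝ) : ℂ) * (Pool.Agent.Y113.KK x : ℂ)) := by
    rw [v3, v1]; push_cast; ring
  fin_cases s
  · show (Real.pi : ℂ) * (Pool.Agent.Y37.GF.E (leg 0) x : ℂ) ∈ W ^ 2
    rw [e1]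
    exact mQ _ _ (pow_mem_mono h1 (by norm_num) (m1 hKm))
  · show (Real.pi : ℂ) * (Pool.Agent.Y37.GF.E (leg 1) x : ℂ) ∈ W ^ 2
    rw [e2]
    exact mQ _ _ (pow_mem_mono h1 (by norm_num) (m1 hEm))
  · show (Real.pi : ℂ) * (Pool.Agent.Y37.GF.E (leg 2) x : ℂ) ∈ W ^ 2
    rw [e3]
    refine Submodule.add_mem _ (Submodule.sub_mem _ (pow_mem_add (m1 hπ) (m1 hK'm)) (mQ _ _ ?_)) (mQ _ _ ?_)
    · exact pow_mem_add (m1 hα) (m1 hKm)
    · exact pow_mem_add hlogW (m1 hKm)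

end Pool.Agent.X120.Geo
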