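import Pool.Agent.X120.Geo.FewS

/-!
# Several multiples of a geometric sequence
-/

set_option autoImplicit false

open PowerSeries

namespace Pool.Agent.X120.Geo

open Pool.Agent.Y916.Om Pool.Agent.X120.Rec

/-- **few bad terms, several multiples** -/
theorem Good.fewM {σ : Type} [Fintype σ] [DecidableEq σ] {f : σ → ℚ⟦X⟧} (h : Good f) {m : ℕ} (a : Fin m → ℕ)
    (ha : ∀ t, 1 ≤ a t) (hainj : Function.Injective a) {b c : ℕ} (hb : 2 ≤ b) (hc : 1 ≤ c) :
    Few (fun n (p : Fin m × σ) => hv f ((a p.1 : ℝ) / (c * (b : ℝ) ^ n)) p.2) := by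
  classical
  intro d δ e τ A B
  obtain ⟨Ev, hInp⟩ := h.inp
  obtain ⟨Ew, hwin⟩ := awh Ev (σ := σ) m d (e + δ) τ A B
  set a' := ∑ t, a t with ha'
  have haa : ∀ t, a t ≤ a' := fun t => Finset.single_le_sum (f := a) (fun _ _ => Nat.zero_le _) (Finset.mem_univ t)
  obtain ⟨C, hC, hcov⟩ := cover (Ew * (a' + 2) + 1) (m * τ) (by omega)
  refine ⟨C, hC, fun υ _ w T hT hD => hcov _ fun i => ?_⟩
  set q := Ew * (a' + 2) + 1 with hq
  by_cases hi : q * 3 ≤ i
  swap
  · exact ⟨∅, by simp, fun j hj => absurd (le_trans (Nat.mul_le_mul_left _ (by omega)) hj) hi⟩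
  set J := i / q - 3 with hJ
  have hJ3 : J + 3 = i / q := by
    have : 3 ≤ i / q := (Nat.le_div_iff_mul_le (by omega)).2 (by rw [mul_comm]; exact hi)
    omega
  have hJi : q * (J + 3) ≤ i := by
    rw [hJ3]
    exact Nat.mul_div_le _ _
  set H : ℕ := a' * b ^ J with hH
  have hH2 : H + 2 ≤ b ^ (J + a' + 2) := by
    have h1 : 1 ≤ b ^ J := Nat.one_le_pow _ _ (by omega)
    have h2 : a' + 2 ≤ b ^ (a' + 2) := (Nat.lt_pow_self (by omega)).le
    calc H + 2 ≤ (a' + 2) * b ^ J := by rw [hH]; nlinarith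
      _ ≤ b ^ (a' + 2) * b ^ J := Nat.mul_le_mul_right _ h2
      _ = _ := by rw [← pow_add]; congr 1; ring
  have hHE : (H + 2) ^ Ew ≤ c * b ^ (i + J) := by
    calc (H + 2) ^ Ew ≤ (b ^ (J + a' + 2)) ^ Ew := Nat.pow_le_pow_left hH2 _
      _ = b ^ ((J + a' + 2) * Ew) := by rw [← pow_mul]
      _ ≤ b ^ (i + J) := by
          refine Nat.pow_le_pow_right (by omega) ?_
          have h0 : J + a' + 2 ≤ (a' + 2) * (J + 3) := by nlinarith [Nat.zero_le (a' * J)]
          have h1 : (J + a' + 2) * Ew ≤ (Ew * (a' + 2)) * (J + 3) := by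
            calc (J + a' + 2) * Ew ≤ ((a' + 2) * (J + 3)) * Ew := Nat.mul_le_mul_right _ h0
              _ = _ := by ring
          have h2 : (Ew * (a' + 2)) * (J + 3) ≤ q * (J + 3) := Nat.mul_le_mul_right _ (by omega)
          omega
      _ ≤ _ := Nat.le_mul_of_pos_left _ (by omega)
  obtain ⟨S₀, hS₀, hw⟩ := hwin ℂ ℕ (fun t => t) _ hInp H (c * b ^ (i + J)) hHE υ w T hT hD
  have hbinj : ∀ t j j', j ≤ J → j' ≤ J → a t * b ^ (J - j) = a t * b ^ (J - j') → j = j' := by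
    intro t j j' hj hj' h1
    have h2 : b ^ (J - j) = b ^ (J - j') := Nat.eq_of_mul_eq_mul_left (ha t) h1
    have h3 := Nat.pow_right_injective hb h2
    omega
  set G : Fin m × ℕ → ℕ := fun g => if h : ∃ j, j ≤ J ∧ a g.1 * b ^ (J - j) = g.2 then i + h.choose else 0 with hG
  refine ⟨(Finset.univ ×ˢ S₀).image G, ?_, fun j hj hbad => ?_⟩
  · refine Finset.card_image_le.trans ?_
    rw [Finset.card_product, Finset.card_univ, Fintype.card_fin]
    exact Nat.mul_le_mul_left _ hS₀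
  have hjJ : j ≤ J := by
    have h1 : j + 3 ≤ i / q := (Nat.le_div_iff_mul_le (by omega)).2 (by rw [mul_comm]; exact hj)
    omega
  by_contra hcon
  obtain ⟨K, hKf, hKd, P, hPd, hPv, hPne⟩ := BadW.lift hbad
  refine hPne (hw (fun t => a t * b ^ (J - j)) ?_ ?_ K hKf hKd _ ?_ P hPd hPv)
  · intro t t' htt
    exact hainj (Nat.eq_of_mul_eq_mul_right (by positivity) htt)
  · intro t
    refine ⟨Nat.mul_pos (ha t) (by positivity), ?_, ?_⟩
    · exact Nat.mul_le_mul (haa t) (Nat.pow_le_pow_right (by omega) (by omega))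
    · intro hmem
      apply hcon
      refine Finset.mem_image.2 ⟨(t, a t * b ^ (J - j)), Finset.mem_product.2 ⟨Finset.mem_univ _, hmem⟩, ?_⟩
      have hex : ∃ j', j' ≤ J ∧ a t * b ^ (J - j') = a t * b ^ (J - j) := ⟨j, hjJ, rfl⟩
      rw [hG]
      simp only
      rw [dif_pos hex, hbinj t _ _ hex.choose_spec.1 hjJ hex.choose_spec.2]
  · rintro ⟨t, s⟩
    refine ⟨1, one_ne_zero, ?_⟩
    have hpt : (((a t * b ^ (J - j) : ℕ) : ℝ) / ((c * b ^ (i + J) : ℕ) : ℝ)) = (a t : ℝ) / (c * (b : ℝ) ^ (i + j)) := by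
      have hb0 : (b : ℝ) ≠ 0 := by exact_mod_cast (by omega : b ≠ 0)
      have hc0 : (c : ℝ) ≠ 0 := by exact_mod_cast (by omega : c ≠ 0)
      have h1 : (b : ℝ) ^ (i + J) = (b : ℝ) ^ (i + j) * (b : ℝ) ^ (J - j) := by
        rw [← pow_add]
        congr 1
        omega
      push_cast
      rw [h1]
      field_simp
    simp only [hpt]
    simp

/-- **few indices for the Legendre family, several multiples** -/
theorem few_legendreM {m : ℕ} (a : Fin m → ℕ) (ha : ∀ t, 1 ≤ a t) (hainj : Function.Injective a) {b c : ℕ}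
    (hb : 2 ≤ b) (hc : 1 ≤ c) :
    Few (fun n (p : Fin m × Fin 3) => perL ((a p.1 : ℝ) / (c * (b : ℝ) ^ n)) p.2) := by
  classical
  obtain ⟨α, β, hβ, -, hval⟩ := Pool.Agent.Y37.GF.values
  have ha0 : ∀ t, (0 : ℝ) < a t := fun t => by exact_mod_cast ha t
  have hc0 : (0 : ℝ) < c := by exact_mod_cast hc
  have hb0 : (0 : ℝ) < b := by exact_mod_cast (by omega : 0 < b)
  have hb1 : (1 : ℝ) < b := by exact_mod_cast (by omega : 1 < b)
  obtain ⟨n₀, hn₀⟩ := pow_unbounded_of_one_lt (8 * (∑ t, a t : ℕ) / c : ℝ) hb1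
  have hβ' : (β : ℂ) ≠ 0 := by exact_mod_cast hβ
  have hpi : (Real.pi : ℂ) ≠ 0 := by exact_mod_cast Real.pi_ne_zero
  set γ : Fin m → ℕ → ℝ := fun t n => α - β / 2 * (Real.log (a t) - Real.log c - n * Real.log b) with hγ
  set u : Fin (5 + m) → ℂ := Fin.append ![(Real.pi : ℂ), (α : ℂ), (β : ℂ), ((β * Real.log c : ℝ) : ℂ),
    ((β * Real.log b : ℝ) : ℂ)] (fun t => ((β * Real.log (a t) : ℝ) : ℂ)) with hu
  have hum : ∀ i, u i ∈ Submodule.span ℚ (insert (1 : ℂ) (Set.range u)) := fun i =>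
    Submodule.subset_span (Set.mem_insert_of_mem _ ⟨i, rfl⟩)
  set M₀ : Fin m → ℕ → Fin 3 → Fin 3 → ℂ := fun t n => ![![((Real.pi / 2 : ℝ) : ℂ), 0, 0], ![0, ((Real.pi / 2 : ℝ) : ℂ), 0],
    ![(γ t n : ℂ), 0, (β : ℂ)]] with hM₀
  set N₀ : Fin m → ℕ → Fin 3 → Fin 3 → ℂ := fun t n => ![![((Real.pi / 2 : ℝ) : ℂ)⁻¹, 0, 0],
    ![0, ((Real.pi / 2 : ℝ) : ℂ)⁻¹, 0], ![-((γ t n : ℂ) * ((Real.pi / 2 : ℝ) : ℂ)⁻¹ * (β : ℂ)⁻¹), 0, (β : ℂ)⁻¹]] with hN₀
  have hMN₀ : ∀ t n s s', ∑ t', M₀ t n s t' * N₀ t n t' s' = if s = s' then 1 else 0 := by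
    intro t n s s'
    rw [Fin.sum_univ_three]
    fin_cases s <;> fin_cases s' <;> simp [hM₀, hN₀, hβ'] <;> field_simp <;> ring
  refine Few_subst (good_leg.fewM a ha hainj hb hc) _ n₀
    (fun n p q => if p.1 = q.1 then M₀ p.1 n p.2 q.2 else 0)
    (fun n p q => if p.1 = q.1 then N₀ p.1 n p.2 q.2 else 0) u ?_ ?_ ?_
  · rintro n ⟨t, s⟩ ⟨t', s'⟩
    rw [Fintype.sum_prod_type, Finset.sum_eq_single t]
    · by_cases htt : t = t'
      · subst htt
        simp only [if_true, Prod.mk.injEq, true_and]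
        exact hMN₀ t n s s'
      · simp [htt]
    · intro t'' _ h2
      simp [Ne.symm h2]
    · intro h2
      exact absurd (Finset.mem_univ _) h2
  · have h1 : ((Real.pi / 2 : ℝ) : ℂ) ∈ Submodule.span ℚ (insert (1 : ℂ) (Set.range u)) := by
      have h2 : ((Real.pi / 2 : ℝ) : ℂ) = (1 / 2 : ℚ) • u (Fin.castAdd m 0) := by
        rw [Rat.smul_def, hu, Fin.append_left]
        simp
        ring
      rw [h2]
      exact Submodule.smul_mem _ _ (hum _)
    rintro n ⟨t, s⟩ ⟨t', s'⟩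
    have h3 : (γ t n : ℂ) ∈ Submodule.span ℚ (insert (1 : ℂ) (Set.range u)) := by
      have h4 : (γ t n : ℂ) = u (Fin.castAdd m 1) + (-1 / 2 : ℚ) • u (Fin.natAdd 5 t) + (1 / 2 : ℚ) • u (Fin.castAdd m 3) +
          ((n : ℚ) / 2) • u (Fin.castAdd m 4) := by
        rw [hu, Fin.append_left, Fin.append_right, Fin.append_left, Fin.append_left]
        simp only [Rat.smul_def]
        simp [hγ]
        ring
      rw [h4]
      exact Submodule.add_mem _ (Submodule.add_mem _ (Submodule.add_mem _ (hum _) (Submodule.smul_mem _ _ (hum _)))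
        (Submodule.smul_mem _ _ (hum _))) (Submodule.smul_mem _ _ (hum _))
    have h5 : (β : ℂ) ∈ Submodule.span ℚ (insert (1 : ℂ) (Set.range u)) := by
      have h6 := hum (Fin.castAdd m 2)
      rw [show u (Fin.castAdd m 2) = (β : ℂ) by rw [hu, Fin.append_left]; simp] at h6
      exact h6
    have h0 : (0 : ℂ) ∈ Submodule.span ℚ (insert (1 : ℂ) (Set.range u)) := Submodule.zero_mem _
    have h1' : (Real.pi : ℂ) / 2 ∈ Submodule.span ℚ (insert (1 : ℂ) (Set.range u)) := by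
      have h6 := h1
      push_cast at h6
      exact h6
    simp only
    split_ifs
    · simp only [hM₀]
      fin_cases s <;> fin_cases s' <;> simp <;> assumption
    · exact h0
  · rintro n hn ⟨t, s⟩
    set x : ℝ := (a t : ℝ) / (c * (b : ℝ) ^ n) with hx
    have hat := ha0 t
    have hx0 : 0 < x := by positivity
    have hx8 : x < 1 / ((0 : ℕ) + 8 : ℝ) := by
      rw [hx, div_lt_div_iff₀ (by positivity) (by norm_num)]
      have h1 : (b : ℝ) ^ n₀ ≤ (b : ℝ) ^ n := pow_le_pow_right₀ hb1.le hn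
      have h2 : 8 * ((∑ t, a t : ℕ) : ℝ) / c < (b : ℝ) ^ n := lt_of_lt_of_le hn₀ h1
      rw [div_lt_iff₀ hc0] at h2
      have h3 : (a t : ℝ) ≤ ((∑ t, a t : ℕ) : ℝ) := by
        exact_mod_cast Finset.single_le_sum (f := a) (fun _ _ => Nat.zero_le _) (Finset.mem_univ t)
      push_cast at h2 h3 ⊢
      linarith
    have hs0 : x / (1 - ((0 : ℕ) : ℝ) * x) = x := by simp
    obtain ⟨v1, v2, v3, -⟩ := hval 0 x hx0 hx8
    rw [hs0] at v1 v2 v3
    have hlog : Real.log x = Real.log (a t) - Real.log c - n * Real.log b := by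
      rw [hx, Real.log_div hat.ne' (by positivity), Real.log_mul hc0.ne' (by positivity), Real.log_pow]
      ring
    rw [hlog] at v3
    rw [Fintype.sum_prod_type, Finset.sum_eq_single t]
    · simp only [if_true]
      rw [Fin.sum_univ_three]
      rw [← hx]
      fin_cases s
      · simp only [perL, hv, leg, hM₀, Matrix.cons_val, Fin.zero_eta]
        rw [v1]
        push_cast
        ring
      · simp only [perL, hv, leg, hM₀, Matrix.cons_val, Fin.mk_one]
        rw [v2]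
        push_cast
        ring
      · simp only [perL, hv, leg, hM₀, Matrix.cons_val, Fin.reduceFinMk]
        rw [v3, hγ]
        push_cast
        ring
    · intro t'' _ h2
      simp [Ne.symm h2]
    · intro h2
      exact absurd (Finset.mem_univ _) h2

end Pool.Agent.X120.Geo
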