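import Pool.Agent.X120.Rec.Lin

/-!
# Linear changes of variables whose coefficients are constants
-/

set_option autoImplicit false

open Module

namespace Pool.Agent.X120.Geo

open Pool.Agent.Y916.Om

section Lin

variable {κ : Type} [Fintype κ] [DecidableEq κ]

/-- the substitution `X_s ↦ ∑_t M_st X_t` -/
noncomputable def subC (M : κ → κ → ℂ) (s : κ) : MvPolynomial κ ℂ :=
  ∑ t, MvPolynomial.C (M s t) * MvPolynomial.X t

omit [DecidableEq κ] in
theorem subC_inj (M N : κ → κ → ℂ) [DecidableEq κ] (hMN : ∀ s s', ∑ t, M s t * N t s' = if s = s' then 1 else 0) :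
    Function.Injective (MvPolynomial.aeval (subC M) : MvPolynomial κ ℂ →ₐ[ℂ] MvPolynomial κ ℂ) := by
  have h : (MvPolynomial.aeval (subC N) : MvPolynomial κ ℂ →ₐ[ℂ] MvPolynomial κ ℂ).comp
      (MvPolynomial.aeval (subC M) : MvPolynomial κ ℂ →ₐ[ℂ] MvPolynomial κ ℂ) = AlgHom.id ℂ _ := by
    refine MvPolynomial.algHom_ext fun s => ?_
    rw [AlgHom.comp_apply, MvPolynomial.aeval_X, AlgHom.id_apply, subC, map_sum]
    have h1 : ∀ t, MvPolynomial.aeval (subC N) (MvPolynomial.C (M s t) * MvPolynomial.X t : MvPolynomial κ ℂ) =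
        ∑ s', MvPolynomial.C (M s t * N t s') * MvPolynomial.X s' := by
      intro t
      rw [map_mul, MvPolynomial.aeval_C, MvPolynomial.aeval_X, MvPolynomial.algebraMap_eq, subC, Finset.mul_sum]
      refine Finset.sum_congr rfl fun s' _ => ?_
      rw [MvPolynomial.C_mul]
      ring
    rw [Finset.sum_congr rfl fun t _ => h1 t, Finset.sum_comm]
    have h2 : ∀ s', ∑ t, MvPolynomial.C (M s t * N t s') * (MvPolynomial.X s' : MvPolynomial κ ℂ) =
        MvPolynomial.C (if s = s' then 1 else 0) * MvPolynomial.X s' := by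
      intro s'
      rw [← Finset.sum_mul, ← hMN s s', map_sum]
    rw [Finset.sum_congr rfl fun s' _ => h2 s']
    rw [Finset.sum_eq_single s]
    · simp
    · intro s' _ hs'
      rw [if_neg (Ne.symm hs')]
      simp
    · intro h
      exact absurd (Finset.mem_univ s) h
  intro x y hxy
  have h1 := DFunLike.congr_fun h x
  have h2 := DFunLike.congr_fun h y
  rw [AlgHom.comp_apply, AlgHom.id_apply] at h1 h2
  rw [← h1, ← h2, hxy]

/-- linear changes of the numbers with coefficients in the space of the constants -/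
theorem BadW_subst {d δ e : ℕ} {υ : Type} {w : υ → ℂ} {x y : κ → ℂ} (M N : κ → κ → ℂ)
    (hMN : ∀ s s', ∑ t, M s t * N t s' = if s = s' then 1 else 0)
    (hM : ∀ s t, M s t ∈ Submodule.span ℚ (insert 1 (Set.range w)))
    (hx : ∀ s, x s = ∑ t, M s t * y t) (h : BadW d δ e w x) : BadW d δ (e + δ) w y := by
  classical
  obtain ⟨K, hK, hd, P, hP0, hPd, hPc, hPv⟩ := h
  set V : Submodule K ℂ := Submodule.span K (insert 1 (Set.range w)) with hV
  have h1 : (1 : ℂ) ∈ V := Submodule.subset_span (Set.mem_insert _ _)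
  have hle : Submodule.span ℚ (insert (1 : ℂ) (Set.range w)) ≤ V.restrictScalars ℚ :=
    Submodule.span_le.2 fun z hz => Submodule.subset_span hz
  have hLD : ∀ s, DC 1 (V.restrictScalars ℚ) (subC M s) := by
    intro s
    refine ⟨?_, fun u => ?_⟩
    · refine MvPolynomial.totalDegree_finsetSum_le fun t _ => ?_
      refine (MvPolynomial.totalDegree_mul _ _).trans ?_
      rw [MvPolynomial.totalDegree_C, MvPolynomial.totalDegree_X]
    · rw [subC, MvPolynomial.coeff_sum]
      refine Submodule.sum_mem _ fun t _ => ?_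
      rw [MvPolynomial.coeff_C_mul, MvPolynomial.coeff_X]
      split_ifs
      · rw [mul_one]
        exact hle (hM s t)
      · rw [mul_zero]
        exact Submodule.zero_mem _
  have hD := DC.subst' (V := (V ^ e).restrictScalars ℚ) (W := V.restrictScalars ℚ) h1 (subC M) hLD (P := P)
    ⟨hPd, hPc⟩
  refine ⟨K, hK, hd, MvPolynomial.aeval (subC M) P, ?_, hD.1, fun s => ?_, ?_⟩
  · intro h0
    exact hP0 (subC_inj M N hMN (h0.trans (map_zero _).symm))
  · rw [pow_add]
    exact res_mul (V := V ^ e) (W := V ^ δ) le_rfl (res_pow V δ) (hD.2 s)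
  · rw [MvPolynomial.comp_aeval_apply]
    have h3 : (fun i => MvPolynomial.aeval y (subC M i)) = x := by
      funext i
      simp [subC, hx]
    rw [h3]
    exact hPv

end Lin

end Pool.Agent.X120.Geo
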