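import Pool.Agent.X120.Geo.Many

/-!
# Tuples of indices, and rational multipliers
-/

set_option autoImplicit false

open Module

namespace Pool.Agent.X120.Geo

open Pool.Agent.Y916.Om Pool.Agent.X120.Rec

/-- coordinates: a relation over `V` is a relation over constants -/
theorem Related.bad {δ d D : ℕ} {V : Submodule ℚ ℂ} {ι υ : Type} {w : Fin D → ℂ} {c : ℂ → Fin D → ℚ}
    (hwc : ∀ v ∈ V, v = ∑ j, ((c v j : ℚ) : ℂ) * w j) {l : ι → ℂ} (h : Related δ d V l) {w' : υ → ℂ} (e : Fin D → υ)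
    (he : ∀ j, w' (e j) = w j) : BadW d δ 1 w' l := by
  obtain ⟨L, hL, hLd, P, hP0, hPd, hPc, hPv⟩ := h
  refine ⟨L, hL, hLd, P, hP0, hPd, fun s => ?_, hPv⟩
  rw [pow_one]
  have hle : Submodule.span L (V : Set ℂ) ≤ Submodule.span L (insert (1 : ℂ) (Set.range w')) := by
    refine Submodule.span_le.2 fun v hv => ?_
    rw [SetLike.mem_coe, hwc v hv]
    refine Submodule.sum_mem _ fun j _ => ?_
    have h2 : ((c v j : ℚ) : ℂ) * w j = (algebraMap ℚ L (c v j)) • w j := by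
      rw [Algebra.smul_def]
      simp
    rw [h2]
    exact Submodule.smul_mem _ _ (Submodule.subset_span (Set.mem_insert_of_mem _ ⟨e j, he j⟩))
  exact hle (hPc s)

/-- **tuples** -/
theorem few_tuples {κ : Type} [Fintype κ] [DecidableEq κ] {k : ℕ} (x : Fin (k + 1) → ℕ → κ → ℂ) (hx : ∀ i, Few (x i))
    (δ d D : ℕ) : ∃ C : ℝ, ∀ V : Submodule ℚ ℂ, Module.Finite ℚ V → finrank ℚ V ≤ D → ∀ T : ℕ, 2 ≤ T →
      {n : Fin (k + 1) → ℕ | (∀ i, 1 ≤ n i ∧ n i ≤ T) ∧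
        Related δ d V (fun p : Fin (k + 1) × κ => x p.1 (n p.1) p.2)}.Finite ∧
      ({n : Fin (k + 1) → ℕ | (∀ i, 1 ≤ n i ∧ n i ≤ T) ∧
        Related δ d V (fun p : Fin (k + 1) × κ => x p.1 (n p.1) p.2)}.ncard : ℝ) ≤ C * (T : ℝ) ^ k * Real.log T := by
  classical
  obtain ⟨C, hC, htup⟩ := tuples (k + 1) x hx d δ 1 D 1 1
  refine ⟨C, fun V hV hVD T hT => ?_⟩
  obtain ⟨w, c, hwc⟩ := coords V hV D hVD
  obtain ⟨S, hS, hmem⟩ := htup (Fin D) w Finset.univ (by rw [Finset.card_univ, Fintype.card_fin]) (Dom.univ w) T hT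
  have hsub : {n : Fin (k + 1) → ℕ | (∀ i, 1 ≤ n i ∧ n i ≤ T) ∧
      Related δ d V (fun p : Fin (k + 1) × κ => x p.1 (n p.1) p.2)} ⊆ (S : Set (Fin (k + 1) → ℕ)) := by
    rintro n ⟨hn, hrel⟩
    exact hmem n hn (Related.bad hwc hrel id fun _ => rfl)
  refine ⟨S.finite_toSet.subset hsub, ?_⟩
  have h1 : ({n : Fin (k + 1) → ℕ | (∀ i, 1 ≤ n i ∧ n i ≤ T) ∧
      Related δ d V (fun p : Fin (k + 1) × κ => x p.1 (n p.1) p.2)}.ncard : ℝ) ≤ S.card := by
    have := Set.ncard_le_ncard hsub S.finite_toSet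
    rw [Set.ncard_coe_finset] at this
    exact_mod_cast this
  refine h1.trans ?_
  have hT0 : (0 : ℝ) < T := by exact_mod_cast (by omega : 0 < T)
  have h2 : (S.card : ℝ) * T ≤ (C * (T : ℝ) ^ k * Real.log T) * T := hS.trans (le_of_eq (by ring))
  exact le_of_mul_le_mul_right h2 hT0

/-- common denominators -/
theorem common_den {m : ℕ} (β : Fin m → ℚ) (hβ : ∀ t, 0 < β t) : ∃ (c : ℕ) (a : Fin m → ℕ), 1 ≤ c ∧ (∀ t, 1 ≤ a t) ∧
    ∀ t, β t = a t / c := by
  classical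
  set c : ℕ := ∏ t, (β t).den with hc
  have hc0 : c ≠ 0 := Finset.prod_ne_zero_iff.2 fun t _ => (β t).den_nz
  have hdvd : ∀ t, (β t).den ∣ c := fun t => Finset.dvd_prod_of_mem _ (Finset.mem_univ t)
  choose e he using hdvd
  refine ⟨c, fun t => (β t).num.toNat * e t, Nat.pos_of_ne_zero hc0, fun t => ?_, fun t => ?_⟩
  · have h1 : 0 < (β t).num := Rat.num_pos.2 (hβ t)
    have h2 : e t ≠ 0 := by
      intro h
      apply hc0
      rw [he t, h, mul_zero]
    exact Nat.mul_pos (by omega) (Nat.pos_of_ne_zero h2)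
  · have h1 : 0 < (β t).num := Rat.num_pos.2 (hβ t)
    have h3 : (((β t).num.toNat : ℕ) : ℚ) = (β t).num := by
      have : (((β t).num.toNat : ℕ) : ℤ) = (β t).num := Int.toNat_of_nonneg h1.le
      exact_mod_cast congrArg (fun z : ℤ => (z : ℚ)) this
    have h2 : (e t : ℚ) ≠ 0 := by
      intro h
      apply hc0
      have : e t = 0 := by exact_mod_cast h
      rw [he t, this, mul_zero]
    have h4 : (c : ℚ) = (β t).den * e t := by exact_mod_cast he t
    push_cast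
    rw [h3, h4, mul_div_mul_right _ _ h2, Rat.num_div_den]

/-- **the Legendre family, rational multipliers** -/
theorem few_legendreQ {m : ℕ} (β : Fin m → ℚ) (hβ : ∀ t, 0 < β t) (hinj : Function.Injective β) {b : ℕ} (hb : 2 ≤ b) :
    Few (fun n (p : Fin m × Fin 3) => perL ((β p.1 : ℝ) / (b : ℝ) ^ n) p.2) := by
  obtain ⟨c, a, hc, ha, hac⟩ := common_den β hβ
  have hc0 : (c : ℝ) ≠ 0 := by exact_mod_cast (by omega : c ≠ 0)
  have h := few_legendreM a ha (fun t t' h => hinj (by rw [hac, hac, h])) hb hc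
  refine (show (fun n (p : Fin m × Fin 3) => perL ((a p.1 : ℝ) / (c * (b : ℝ) ^ n)) p.2) =
    (fun n (p : Fin m × Fin 3) => perL ((β p.1 : ℝ) / (b : ℝ) ^ n) p.2) from ?_) ▸ h
  funext n p
  congr 1
  rw [hac p.1]
  push_cast
  rw [div_div]

end Pool.Agent.X120.Geo
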